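import Mathlib

/-! Ranks of the signed parts of a finitely generated abelian group with an action of a finite
abelian group. -/

set_option autoImplicit false

namespace Pool.Agent.Lib.MP_c4714e_nt

open Module Finset

/-- The coefficient `c` with `rank A^s = ∑ i ≤ m, c (i) rank A^(I i)`, for the sign `s`
(`0` for plus, `1` for minus). -/
def coef (s m i : ℕ) : ℤ :=
  (if i = 0 ∨ (i - 1) % 2 ≠ s then 1 else 0) - (if i < m ∧ i % 2 ≠ s then 1 else 0)

theorem sum_coef {M : Type*} [AddCommGroup M] (φ : ℕ → M) (s m : ℕ) :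
    φ 0 + ∑ l ∈ range m, (if l % 2 = s then 0 else φ (l + 1) - φ l) =
      ∑ i ∈ range (m + 1), coef s m i • φ i := by
  induction m with
  | zero => simp [coef]
  | succ m ih =>
    rw [sum_range_succ, ← add_assoc, ih, sum_range_succ _ (m + 1), sum_range_succ _ m,
      sum_range_succ _ m]
    have h1 : ∑ i ∈ range m, coef s (m + 1) i • φ i = ∑ i ∈ range m, coef s m i • φ i := by
      refine sum_congr rfl fun i hi => ?_
      have hi := mem_range.1 hi
      have e : coef s (m + 1) i = coef s m i := by
        unfold coef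
        have h2 : i < m + 1 := by omega
        simp [hi, h2]
      rw [e]
    rw [h1]
    have h3 : coef s (m + 1) (m + 1) = if m % 2 = s then 0 else 1 := by
      unfold coef
      by_cases h : m % 2 = s <;> simp [h]
    have h4 : coef s (m + 1) m = coef s m m - (if m % 2 = s then 0 else 1) := by
      unfold coef
      by_cases h : m % 2 = s <;> simp [h]
    rw [h3, h4]
    split_ifs
    · simp
    · rw [sub_smul, one_smul]
      abel

section proj

variable {V : Type*} [AddCommGroup V] [Module ℚ V]

/-- the projection onto the part of sign `s` -/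
def proj (e : ℕ → End ℚ V) (s m : ℕ) : End ℚ V :=
  e 0 + ∑ l ∈ range m, (if l % 2 = s then 0 else e (l + 1) - e l)

theorem proj_apply_of_mem (e : ℕ → End ℚ V) (s m : ℕ) (hm : e m = 1) (v : V)
    (hv : ∀ l < m, l % 2 = s → e (l + 1) v = e l v) : proj e s m v = v := by
  have h1 : v = e 0 v + ∑ l ∈ range m, (e (l + 1) v - e l v) := by
    rw [sum_range_sub (fun l => e l v) m, hm]
    simp
  conv_rhs => rw [h1]
  rw [proj, LinearMap.add_apply, LinearMap.sum_apply]
  congr 1
  refine sum_congr rfl fun l hl => ?_
  split_ifs with h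
  · rw [hv l (mem_range.1 hl) h, sub_self, LinearMap.zero_apply]
  · rfl

theorem mul_proj (e : ℕ → End ℚ V) (he : ∀ i j, i ≤ j → e i * e j = e i ∧ e j * e i = e i)
    (s m l : ℕ) (hl : l % 2 = s) : e (l + 1) * proj e s m = e l * proj e s m := by
  rw [proj, mul_add, mul_add, (he 0 (l + 1) (Nat.zero_le _)).2, (he 0 l (Nat.zero_le _)).2,
    mul_sum, mul_sum]
  congr 1
  refine sum_congr rfl fun k _ => ?_
  split_ifs with h
  · simp
  · rcases lt_trichotomy k l with hk | hk | hk
    · rw [mul_sub, mul_sub, (he (k + 1) (l + 1) (by omega)).2, (he k (l + 1) (by omega)).2,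
        (he (k + 1) l (by omega)).2, (he k l (by omega)).2]
    · exact absurd (hk ▸ hl) h
    · rw [mul_sub, mul_sub, (he (l + 1) (k + 1) (by omega)).1, (he (l + 1) k (by omega)).1,
        (he l (k + 1) (by omega)).1, (he l k (by omega)).1, sub_self, sub_self]

theorem commute_proj (e : ℕ → End ℚ V) (g : End ℚ V) (h : ∀ i, Commute g (e i)) (s m : ℕ) :
    Commute g (proj e s m) := by
  unfold proj
  refine (h 0).add_right (Commute.sum_right _ _ _ fun l _ => ?_)
  split_ifs
  · exact Commute.zero_right _
  · exact (h _).sub_right (h _)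

theorem proj_eq (e : ℕ → End ℚ V) (s m : ℕ) :
    proj e s m = ∑ i ∈ range (m + 1), coef s m i • e i := sum_coef e s m

/-- The dimension of the part of signs `s`, `z`. -/
theorem finrank_signed [FiniteDimensional ℚ V] (e f : ℕ → End ℚ V)
    (he : ∀ i j, i ≤ j → e i * e j = e i ∧ e j * e i = e i)
    (hf : ∀ i j, i ≤ j → f i * f j = f i ∧ f j * f i = f i)
    (hc : ∀ i j, Commute (e i) (f j)) (m n s z : ℕ) (hm : e m = 1) (hn : f n = 1)
    (W : Submodule ℚ V) (hW : ∀ v, v ∈ W ↔ (∀ l < m, l % 2 = s → e (l + 1) v = e l v) ∧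
      ∀ l < n, l % 2 = z → f (l + 1) v = f l v)
    (U : ℕ → ℕ → Submodule ℚ V) (hU : ∀ i j v, v ∈ U i j ↔ e i v = v ∧ f j v = v) :
    (finrank ℚ W : ℤ) = ∑ i ∈ range (m + 1), ∑ j ∈ range (n + 1),
      coef s m i * coef z n j * (finrank ℚ (U i j) : ℤ) := by
  have h1 : LinearMap.IsProj W (proj e s m * proj f z n) := by
    constructor
    · intro v
      rw [hW]
      constructor
      · intro l _ hs
        have := mul_proj e he s m l hs
        rw [Module.End.mul_apply, ← Module.End.mul_apply (e (l + 1)), this]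
        rfl
      · intro l _ hz
        have h2 := mul_proj f hf z n l hz
        have h3 : Commute (proj e s m) (proj f z n) :=
          commute_proj f _ (fun j => (commute_proj e (f j) (fun i => (hc i j).symm) s m).symm) z n
        rw [h3.eq, Module.End.mul_apply, ← Module.End.mul_apply (f (l + 1)), h2]
        rfl
    · intro v hv
      rw [hW] at hv
      rw [Module.End.mul_apply, proj_apply_of_mem f z n hn v hv.2,
        proj_apply_of_mem e s m hm v hv.1]
  have h2 : ∀ i j, LinearMap.IsProj (U i j) (e i * f j) := by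
    intro i j
    constructor
    · intro v
      rw [hU]
      constructor
      · rw [← Module.End.mul_apply, ← mul_assoc, (he i i le_rfl).1]
      · rw [← Module.End.mul_apply, ← mul_assoc, ← (hc i j).eq, mul_assoc, (hf j j le_rfl).1]
    · intro v hv
      rw [hU] at hv
      rw [Module.End.mul_apply, hv.2, hv.1]
  have h3 := h1.trace
  have h4 : ∀ i j, LinearMap.trace ℚ V (e i * f j) = (finrank ℚ (U i j) : ℚ) :=
    fun i j => (h2 i j).trace
  have h5 : LinearMap.trace ℚ V (proj e s m * proj f z n) =
      ∑ i ∈ range (m + 1), ∑ j ∈ range (n + 1),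
        (coef s m i : ℚ) * coef z n j * (finrank ℚ (U i j) : ℚ) := by
    rw [proj_eq, proj_eq, sum_mul, map_sum]
    refine sum_congr rfl fun i _ => ?_
    rw [mul_sum, map_sum]
    refine sum_congr rfl fun j _ => ?_
    rw [smul_mul_smul_comm, map_zsmul, h4, zsmul_eq_mul]
    push_cast
    ring
  rw [h3] at h5
  exact_mod_cast h5

end proj

end Pool.Agent.Lib.MP_c4714e_nt
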