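import Pool.Agent.Lib.MP_c4714e_nt.Rep

/-! Ranks as elements of `ℕ ∪ {∞}`, and the passage to rational vector spaces without finiteness
conditions. -/

set_option autoImplicit false

namespace Pool.Agent.Lib.MP_c4714e_nt

open Module Finset TensorProduct Cardinal

/-- the rank of an abelian group, a natural number or `∞` -/
noncomputable def rkE (A : Type) [AddCommGroup A] : ℕ∞ := Cardinal.toENat (Module.rank ℤ A)

theorem rkE_ne_top_iff {A : Type} [AddCommGroup A] {V : Type} [AddCommGroup V] [Module ℚ V]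
    (h : Module.rank ℤ A = Module.rank ℚ V) : rkE A ≠ ⊤ ↔ FiniteDimensional ℚ V := by
  rw [rkE, h, ← lt_top_iff_ne_top, Cardinal.toENat_lt_top, rank_lt_aleph0_iff]

theorem rkE_eq_finrank {A : Type} [AddCommGroup A] (h : rkE A ≠ ⊤) :
    rkE A = (finrank ℤ A : ℕ∞) := by
  rw [rkE, ← lt_top_iff_ne_top, Cardinal.toENat_lt_top] at h
  obtain ⟨n, hn⟩ := Cardinal.lt_aleph0.1 h
  rw [rkE, finrank, hn]
  simp

theorem finrank_eq_of_rank {A : Type} [AddCommGroup A] {V : Type} [AddCommGroup V] [Module ℚ V]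
    (h : Module.rank ℤ A = Module.rank ℚ V) : finrank ℤ A = finrank ℚ V := by
  rw [finrank, finrank, h]

section

variable {A : Type} [AddCommGroup A]

theorem rank_transfer (B : Submodule ℤ A) (W : Submodule ℚ (ℚ ⊗[ℤ] A))
    (h1 : ∀ a ∈ B, emb A a ∈ W) (h2 : ∀ a, emb A a ∈ W → ∃ k : ℤ, k ≠ 0 ∧ k • a ∈ B) :
    Module.rank ℤ B = Module.rank ℚ W := by
  have e : B.localized' ℚ (nonZeroDivisors ℤ) (emb A) = W := by
    ext x
    rw [Submodule.mem_localized']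
    constructor
    · rintro ⟨a, ha, t, rfl⟩
      have h3 := h1 a ha
      rw [← IsLocalizedModule.mk'_cancel' (emb A) a t] at h3
      have h4 : (t : ℤ) • IsLocalizedModule.mk' (emb A) a t ∈ W := h3
      have ht : ((t : ℤ) : ℚ) ≠ 0 := by exact_mod_cast nonZeroDivisors.ne_zero t.2
      have h5 := W.smul_mem (((t : ℤ) : ℚ)⁻¹) h4
      rwa [← Int.cast_smul_eq_zsmul ℚ, smul_smul, inv_mul_cancel₀ ht, one_smul] at h5
    · intro hx
      obtain ⟨⟨a, t⟩, rfl⟩ := IsLocalizedModule.mk'_surjective (nonZeroDivisors ℤ) (emb A) x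
      simp only [Function.uncurry_apply_pair] at hx ⊢
      have h3 : emb A a ∈ W := by
        rw [← IsLocalizedModule.mk'_cancel' (emb A) a t]
        show (t : ℤ) • IsLocalizedModule.mk' (emb A) a t ∈ W
        rw [← Int.cast_smul_eq_zsmul ℚ]
        exact W.smul_mem _ hx
      obtain ⟨k, hk, hka⟩ := h2 a h3
      refine ⟨k • a, hka, ⟨k, mem_nonZeroDivisors_of_ne_zero hk⟩ * t, ?_⟩
      exact IsLocalizedModule.mk'_cancel_left (f := emb A) a ⟨k, mem_nonZeroDivisors_of_ne_zero hk⟩ t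
  rw [← e]
  have h3 := IsLocalizedModule.rank_eq (nonZeroDivisors ℤ) le_rfl
    (B.toLocalized' ℚ (nonZeroDivisors ℤ) (emb A))
  rw [← h3]
  exact (IsLocalization.rank_eq (R := ℤ) ℚ (nonZeroDivisors ℤ) le_rfl).symm

theorem exists_common {ι : Type*} (S : Finset ι) (x : ι → A) (h : ∀ i ∈ S, emb A (x i) = 0) :
    ∃ k : ℤ, k ≠ 0 ∧ ∀ i ∈ S, k • x i = 0 := by
  classical
  induction S using Finset.induction_on with
  | empty => exact ⟨1, one_ne_zero, by simp⟩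
  | insert a S _ ih =>
    obtain ⟨k1, hk1, h1⟩ := ih fun i hi => h i (mem_insert_of_mem hi)
    obtain ⟨k2, hk2, h2⟩ := emb_eq_zero (h a (mem_insert_self a S))
    refine ⟨k1 * k2, mul_ne_zero hk1 hk2, fun i hi => ?_⟩
    rcases mem_insert.1 hi with rfl | hi
    · rw [mul_smul, h2, smul_zero]
    · rw [mul_comm, mul_smul, h1 i hi, smul_zero]

end

section rep

variable {Γ : Type} [Group Γ] [IsMulCommutative Γ] [Finite Γ] {A : Type} [AddCommGroup A]

/-- the rational vector space of the part of signs `s`, `z` -/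
noncomputable def Wsp (ρ : Γ →* End ℤ A) (I J : ℕ → Subgroup Γ) (m n s z : ℕ) :
    Submodule ℚ (ℚ ⊗[ℤ] A) where
  carrier := {v | (∀ l < m, l % 2 = s → avg ρ (I (l + 1)) v = avg ρ (I l) v) ∧
    ∀ l < n, l % 2 = z → avg ρ (J (l + 1)) v = avg ρ (J l) v}
  add_mem' := fun {a b} ha hb => ⟨fun l hl h => by
    rw [map_add, map_add, ha.1 l hl h, hb.1 l hl h], fun l hl h => by
    rw [map_add, map_add, ha.2 l hl h, hb.2 l hl h]⟩
  zero_mem' := ⟨fun l _ _ => by rw [map_zero, map_zero], fun l _ _ => by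
    rw [map_zero, map_zero]⟩
  smul_mem' := fun c a ha => ⟨fun l hl h => by
    rw [map_smul, map_smul, ha.1 l hl h], fun l hl h => by
    rw [map_smul, map_smul, ha.2 l hl h]⟩

/-- the rational vector space of the elements fixed by `I i` and `J j` -/
noncomputable def Usp (ρ : Γ →* End ℤ A) (I J : ℕ → Subgroup Γ) (i j : ℕ) :
    Submodule ℚ (ℚ ⊗[ℤ] A) where
  carrier := {v | avg ρ (I i) v = v ∧ avg ρ (J j) v = v}
  add_mem' := fun {a b} ha hb => ⟨by rw [map_add, ha.1, hb.1], by rw [map_add, ha.2, hb.2]⟩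
  zero_mem' := ⟨map_zero _, map_zero _⟩
  smul_mem' := fun c a ha => ⟨by rw [map_smul, ha.1], by rw [map_smul, ha.2]⟩

theorem exists_signed (ρ : Γ →* End ℤ A) (I : ℕ → Subgroup Γ) (s m : ℕ) (a : A)
    (ha : ∀ l < m, l % 2 = s → avg ρ (I (l + 1)) (emb A a) = avg ρ (I l) (emb A a)) :
    ∃ k : ℤ, k ≠ 0 ∧ k • a ∈ signedPart ρ I s m := by
  classical
  have : Fintype Γ := Fintype.ofFinite Γ
  obtain ⟨k, hk, h⟩ := exists_common
    (((range m) ×ˢ (Finset.univ : Finset Γ)).filter fun q => q.1 % 2 = s ∧ q.2 ∈ I q.1)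
    (fun q => ρ q.2 (nrm ρ (I (q.1 + 1)) a) - nrm ρ (I (q.1 + 1)) a) (by
      intro q hq
      rw [mem_filter, mem_product, mem_range] at hq
      exact fixed_of_avg_eq ρ a (ha q.1 hq.1.1 hq.2.1) hq.2.2)
  refine ⟨k, hk, fun l hl hs τ hτ => ?_⟩
  have h3 := h (l, τ) (by
    rw [mem_filter, mem_product, mem_range]
    exact ⟨⟨hl, mem_univ _⟩, hs, hτ⟩)
  rw [map_smul, map_smul, ← sub_eq_zero, ← smul_sub]
  exact h3

theorem exists_fixed (ρ : Γ →* End ℤ A) (H : Subgroup Γ) (a : A)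
    (ha : avg ρ H (emb A a) = emb A a) : ∃ k : ℤ, k ≠ 0 ∧ k • a ∈ fixedBy ρ H := by
  classical
  have : Fintype Γ := Fintype.ofFinite Γ
  obtain ⟨k, hk, h⟩ := exists_common ((Finset.univ : Finset Γ).filter fun τ => τ ∈ H)
    (fun τ => ρ τ a - a) (by
      intro τ hτ
      rw [mem_filter] at hτ
      exact fixed_of_avg ρ H a ha hτ.2)
  refine ⟨k, hk, fun τ hτ => ?_⟩
  have h3 := h τ (by
    rw [mem_filter]
    exact ⟨mem_univ _, hτ⟩)
  rw [map_smul, ← sub_eq_zero, ← smul_sub]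
  exact h3

theorem rank_signed_sub (ρ : Γ →* End ℤ A) (I J : ℕ → Subgroup Γ) (hI : Antitone I)
    (hJ : Antitone J) (m n s z : ℕ) :
    Module.rank ℤ (signedPart ρ I s m ⊓ signedPart ρ J z n : Submodule ℤ A) =
      Module.rank ℚ (Wsp ρ I J m n s z) := by
  refine rank_transfer _ _ ?_ ?_
  · rintro a ⟨ha1, ha2⟩
    exact ⟨fun l hl h => avg_eq_of_fixed ρ (hI (Nat.le_succ l)) a (ha1 l hl h),
      fun l hl h => avg_eq_of_fixed ρ (hJ (Nat.le_succ l)) a (ha2 l hl h)⟩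
  · rintro a ⟨ha1, ha2⟩
    obtain ⟨k1, hk1, h1⟩ := exists_signed ρ I s m a ha1
    obtain ⟨k2, hk2, h2⟩ := exists_signed ρ J z n a ha2
    refine ⟨k1 * k2, mul_ne_zero hk1 hk2, ?_, ?_⟩
    · rw [mul_comm, mul_smul]
      exact Submodule.smul_mem _ _ h1
    · rw [mul_smul]
      exact Submodule.smul_mem _ _ h2

theorem rank_fixed_sub (ρ : Γ →* End ℤ A) (I J : ℕ → Subgroup Γ) (i j : ℕ) :
    Module.rank ℤ (fixedBy ρ (I i) ⊓ fixedBy ρ (J j) : Submodule ℤ A) =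
      Module.rank ℚ (Usp ρ I J i j) := by
  refine rank_transfer _ _ ?_ ?_
  · rintro a ⟨ha1, ha2⟩
    exact ⟨emb_mem_avg_iff ρ _ a ha1, emb_mem_avg_iff ρ _ a ha2⟩
  · rintro a ⟨ha1, ha2⟩
    obtain ⟨k1, hk1, h1⟩ := exists_fixed ρ (I i) a ha1
    obtain ⟨k2, hk2, h2⟩ := exists_fixed ρ (J j) a ha2
    refine ⟨k1 * k2, mul_ne_zero hk1 hk2, ?_, ?_⟩
    · rw [mul_comm, mul_smul]
      exact Submodule.smul_mem _ _ h1
    · rw [mul_smul]
      exact Submodule.smul_mem _ _ h2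

/-- the dimension formula, if the whole space has finite dimension -/
theorem finrank_Wsp (ρ : Γ →* End ℤ A) (I J : ℕ → Subgroup Γ) (hI : Antitone I)
    (hJ : Antitone J) (m n s z : ℕ) (hm : I m = ⊥) (hn : J n = ⊥)
    [FiniteDimensional ℚ (ℚ ⊗[ℤ] A)] :
    (finrank ℚ (Wsp ρ I J m n s z) : ℤ) =
      ∑ i ∈ range (m + 1), ∑ j ∈ range (n + 1), coef s m i * coef z n j *
        (finrank ℚ (Usp ρ I J i j) : ℤ) :=
  finrank_signed (fun i => avg ρ (I i)) (fun j => avg ρ (J j))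
    (fun i j h => avg_mul_avg ρ (hI h)) (fun i j h => avg_mul_avg ρ (hJ h))
    (fun i j => commute_avg ρ _ _) m n s z
    (by show avg ρ (I m) = 1; rw [hm, avg_bot]) (by show avg ρ (J n) = 1; rw [hn, avg_bot])
    (Wsp ρ I J m n s z) (fun v => Iff.rfl) (Usp ρ I J) (fun i j v => Iff.rfl)

theorem Usp_top (ρ : Γ →* End ℤ A) (I J : ℕ → Subgroup Γ) (m n : ℕ) (hm : I m = ⊥)
    (hn : J n = ⊥) : Usp ρ I J m n = ⊤ := by
  rw [eq_top_iff]
  intro v _
  constructor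
  · rw [hm, avg_bot]
    rfl
  · rw [hn, avg_bot]
    rfl

/-- the projection onto the level below `i` -/
theorem exists_lower (ρ : Γ →* End ℤ A) (I : ℕ → Subgroup Γ) (hI : Antitone I) (s i : ℕ)
    (hi : i = 0 ∨ (i - 1) % 2 ≠ s) : ∃ e' : End ℚ (ℚ ⊗[ℤ] A),
    (∀ H : Subgroup Γ, ∀ v, e' (avg ρ H v) = avg ρ H (e' v)) ∧
    (∀ v, e' (e' v) = e' v) ∧
    (∀ v, avg ρ (I i) v = v → e' v = 0 → ∀ l, l % 2 = s →
      avg ρ (I (l + 1)) v = avg ρ (I l) v) ∧
    (i = 0 ∧ e' = 0 ∨ 0 < i ∧ e' = avg ρ (I (i - 1))) := by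
  have eI : ∀ a b, a ≤ b → ∀ v, avg ρ (I a) (avg ρ (I b) v) = avg ρ (I a) v ∧
      avg ρ (I b) (avg ρ (I a) v) = avg ρ (I a) v := by
    intro a b hab v
    obtain ⟨k1, k2⟩ := avg_mul_avg ρ (hI hab)
    exact ⟨LinearMap.congr_fun k1 v, LinearMap.congr_fun k2 v⟩
  have hup : ∀ v, avg ρ (I i) v = v → ∀ l, i ≤ l → avg ρ (I l) v = v := by
    intro v hv l hl
    rw [← hv, (eI i l hl v).2]
  rcases Nat.eq_zero_or_pos i with h0 | h0
  · refine ⟨0, fun _ _ => ?_, fun _ => rfl, fun v hv _ l _ => ?_, Or.inl ⟨h0, rfl⟩⟩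
    · rw [LinearMap.zero_apply, LinearMap.zero_apply, map_zero]
    · rw [hup v hv l (h0 ▸ Nat.zero_le l), hup v hv (l + 1) (h0 ▸ Nat.zero_le _)]
  · refine ⟨avg ρ (I (i - 1)), fun H v => ?_, fun v => (eI _ _ le_rfl v).1,
      fun v hv h l hl => ?_, Or.inr ⟨h0, rfl⟩⟩
    · exact LinearMap.congr_fun (commute_avg ρ (I (i - 1)) H).eq v
    · have hlow : ∀ l, l ≤ i - 1 → avg ρ (I l) v = 0 := by
        intro l hl
        rw [← (eI l (i - 1) hl v).1, h, map_zero]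
      rcases Nat.lt_or_ge l i with h1 | h1
      · have h2 : l ≠ i - 1 := by
          rintro rfl
          rcases hi with hi | hi
          · omega
          · exact hi hl
        rw [hlow l (by omega), hlow (l + 1) (by omega)]
      · rw [hup v hv l h1, hup v hv (l + 1) (by omega)]

/-- the induction step for the finiteness of the spaces `Usp` -/
theorem finite_step (ρ : Γ →* End ℤ A) (I J : ℕ → Subgroup Γ) (hI : Antitone I)
    (hJ : Antitone J) {m n s z i j : ℕ} (hi : i = 0 ∨ (i - 1) % 2 ≠ s)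
    (hj : j = 0 ∨ (j - 1) % 2 ≠ z) (hW : FiniteDimensional ℚ (Wsp ρ I J m n s z))
    (h1 : 0 < i → FiniteDimensional ℚ (Usp ρ I J (i - 1) j))
    (h2 : 0 < j → FiniteDimensional ℚ (Usp ρ I J i (j - 1))) :
    FiniteDimensional ℚ (Usp ρ I J i j) := by
  obtain ⟨e', ec, ei, ed, ee⟩ := exists_lower ρ I hI s i hi
  obtain ⟨f', fc, fi, fd, fe⟩ := exists_lower ρ J hJ z j hj
  have hef : ∀ v, e' (f' v) = f' (e' v) := by
    intro v
    rcases fe with ⟨-, fe⟩ | ⟨-, fe⟩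
    · rw [fe, LinearMap.zero_apply, LinearMap.zero_apply, map_zero]
    · rw [fe, ec]
  have hEU : ∀ v ∈ Usp ρ I J i j, e' v ∈ Usp ρ I J i j := fun v hv =>
    ⟨by rw [← ec, hv.1], by rw [← ec, hv.2]⟩
  have hFU : ∀ v ∈ Usp ρ I J i j, f' v ∈ Usp ρ I J i j := fun v hv =>
    ⟨by rw [← fc, hv.1], by rw [← fc, hv.2]⟩
  have P1 : FiniteDimensional ℚ ((Usp ρ I J i j).map e') := by
    rcases ee with ⟨-, ee⟩ | ⟨h0, ee⟩
    · rw [ee, Submodule.map_zero]
      infer_instance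
    · have := h1 h0
      refine Submodule.finiteDimensional_of_le (S₂ := Usp ρ I J (i - 1) j) ?_
      rintro _ ⟨v, hv, rfl⟩
      refine ⟨?_, (hEU v hv).2⟩
      have h3 := ei v
      rw [ee] at h3 ⊢
      exact h3
  have P2 : FiniteDimensional ℚ ((Usp ρ I J i j).map f') := by
    rcases fe with ⟨-, fe⟩ | ⟨h0, fe⟩
    · rw [fe, Submodule.map_zero]
      infer_instance
    · have := h2 h0
      refine Submodule.finiteDimensional_of_le (S₂ := Usp ρ I J i (j - 1)) ?_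
      rintro _ ⟨v, hv, rfl⟩
      refine ⟨(hFU v hv).1, ?_⟩
      have h3 := fi v
      rw [fe] at h3 ⊢
      exact h3
  refine Submodule.finiteDimensional_of_le
    (S₂ := (Usp ρ I J i j).map e' ⊔ (Usp ρ I J i j).map f' ⊔ Wsp ρ I J m n s z) ?_
  intro v hv
  have hw : v - e' v ∈ Usp ρ I J i j := sub_mem hv (hEU v hv)
  have hx : v - e' v - f' (v - e' v) ∈ Usp ρ I J i j := sub_mem hw (hFU _ hw)
  have hx1 : e' (v - e' v - f' (v - e' v)) = 0 := by
    rw [map_sub, hef, map_sub, ei, sub_self, map_zero, sub_zero]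
  have hx2 : f' (v - e' v - f' (v - e' v)) = 0 := by
    rw [map_sub, fi, sub_self]
  have e : v = e' v + f' (v - e' v) + (v - e' v - f' (v - e' v)) := by abel
  rw [e]
  refine Submodule.add_mem_sup (Submodule.add_mem_sup ⟨v, hv, rfl⟩ ⟨_, hw, rfl⟩) ?_
  exact ⟨fun l _ hl => ed _ hx.1 hx1 l hl, fun l _ hl => fd _ hx.2 hx2 l hl⟩

end rep

end Pool.Agent.Lib.MP_c4714e_nt
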