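import Pool.Agent.Lib.MP_c4714e_nt.Rep

/-! The layers `K_{m,n}` and the signed Mordell-Weil groups. -/

set_option autoImplicit false

namespace Pool.Agent.Lib.MP_c4714e_nt

open NumberField IntermediateField

section

variable {F Ω : Type} [Field F] [NumberField F] [Field Ω] [Algebra F Ω]

/-- the prime `𝔩` is totally ramified in `L`, of degree `d`: `𝔩 𝓞_L = u ^ d` for a prime `u` -/
def TotRam (𝔩 : Ideal (𝓞 F)) (L : IntermediateField F Ω) (d : ℕ) : Prop :=
  ∃ u : Ideal (𝓞 L), u.IsPrime ∧ 𝔩.map (algebraMap (𝓞 F) (𝓞 L)) = u ^ d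

/-- the prime `𝔩` is unramified in `L`: `𝔩 𝓞_L` is squarefree -/
def Unr (𝔩 : Ideal (𝓞 F)) (L : IntermediateField F Ω) : Prop :=
  Squarefree (𝔩.map (algebraMap (𝓞 F) (𝓞 L)))

/-- `w` is a prime of `L` over the prime `𝔩` of `F` -/
def Over (L : IntermediateField F Ω) (w : Ideal (𝓞 L)) (𝔩 : Ideal (𝓞 F)) : Prop :=
  w.IsPrime ∧ w.comap (algebraMap (𝓞 F) (𝓞 L)) = 𝔩

end

/-- The layers `P k = F(𝔭^k)` and `Q k = F(𝔮^k)`, subfields of the (abelian) extension `Ω = F_∞` of
`F`: `P k` has degree `p^k` over `F`, the prime `𝔭` above `p` is totally ramified in it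
and all other primes are unramified; likewise for `Q k` and the prime `𝔮 ≠ 𝔭` above `p`. -/
structure Layers (p : ℕ) (F Ω : Type) [Field F] [NumberField F] [Field Ω] [Algebra F Ω] where
  𝔭 : Ideal (𝓞 F)
  𝔮 : Ideal (𝓞 F)
  prime_𝔭 : 𝔭.IsPrime
  prime_𝔮 : 𝔮.IsPrime
  mem_𝔭 : (p : 𝓞 F) ∈ 𝔭
  mem_𝔮 : (p : 𝓞 F) ∈ 𝔮
  ne : 𝔭 ≠ 𝔮
  P : ℕ → IntermediateField F Ω
  Q : ℕ → IntermediateField F Ω
  mono_P : Monotone P
  mono_Q : Monotone Q
  finrank_P : ∀ k, Module.finrank F (P k) = p ^ k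
  finrank_Q : ∀ k, Module.finrank F (Q k) = p ^ k
  tot_P : ∀ k, TotRam 𝔭 (P k) (p ^ k)
  tot_Q : ∀ k, TotRam 𝔮 (Q k) (p ^ k)
  unr_P : ∀ (k : ℕ) (𝔩 : Ideal (𝓞 F)), 𝔩.IsPrime → 𝔩 ≠ ⊥ → 𝔩 ≠ 𝔭 → Unr 𝔩 (P k)
  unr_Q : ∀ (k : ℕ) (𝔩 : Ideal (𝓞 F)), 𝔩.IsPrime → 𝔩 ≠ ⊥ → 𝔩 ≠ 𝔮 → Unr 𝔩 (Q k)

variable {p : ℕ} {F Ω : Type} [Field F] [NumberField F] [Field Ω] [Algebra F Ω]

/-- `K_{m,n} = F(𝔭^m) F(𝔮^n)` -/
def Layers.K (T : Layers p F Ω) (m n : ℕ) : IntermediateField F Ω := T.P m ⊔ T.Q n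

/-- `σ ∈ Gal(L/F)` fixes the elements of `L ∩ K'` and maps `w` to itself -/
def InDec (L : IntermediateField F Ω) (w : Ideal (𝓞 L)) (K' : IntermediateField F Ω)
    (σ : L ≃ₐ[F] L) : Prop :=
  (∀ x : L, (x : Ω) ∈ K' → σ x = x) ∧
    ∀ x : 𝓞 L, RingOfIntegers.mapRingEquiv (σ : L ≃+* L) x ∈ w ↔ x ∈ w

theorem InDec.mul {L : IntermediateField F Ω} {w : Ideal (𝓞 L)} {K' : IntermediateField F Ω}
    {a b : L ≃ₐ[F] L} (ha : InDec L w K' a) (hb : InDec L w K' b) : InDec L w K' (a * b) :=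
  ⟨fun x hx => by
    rw [AlgEquiv.mul_apply, hb.1 x hx, ha.1 x hx], fun x => (ha.2 _).trans (hb.2 x)⟩

theorem InDec.one (L : IntermediateField F Ω) (w : Ideal (𝓞 L)) (K' : IntermediateField F Ω) :
    InDec L w K' 1 := ⟨fun _ _ => rfl, fun _ => Iff.rfl⟩

theorem InDec.inv {L : IntermediateField F Ω} {w : Ideal (𝓞 L)} {K' : IntermediateField F Ω}
    {a : L ≃ₐ[F] L} (ha : InDec L w K' a) : InDec L w K' a⁻¹ :=
  ⟨fun x hx => by
    rw [← ha.1 x hx]
    exact (a.symm_apply_apply x).trans (ha.1 x hx).symm, fun x => by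
      rw [← ha.2]
      have : RingOfIntegers.mapRingEquiv (a : L ≃+* L)
          (RingOfIntegers.mapRingEquiv ((a⁻¹ : L ≃ₐ[F] L) : L ≃+* L) x) = x := by
        apply RingOfIntegers.ext
        exact a.apply_symm_apply _
      rw [this]⟩

/-- The decomposition group of the prime `w` of `L` in `Gal(L/K')` (for `K' ≤ L`): the elements of
`Gal(L/F)` which fix the elements of `K'` and map `w` to itself. It is the Galois group of the
completions `L_w / K'_w`. -/
def decomp (L : IntermediateField F Ω) (w : Ideal (𝓞 L)) (K' : IntermediateField F Ω) :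
    Subgroup (L ≃ₐ[F] L) where
  carrier := {σ | InDec L w K' σ}
  mul_mem' := InDec.mul
  one_mem' := InDec.one L w K'
  inv_mem' := InDec.inv

/-- the group `E(L)` -/
abbrev Pt (E : WeierstrassCurve F) (L : IntermediateField F Ω) : Type :=
  (E.toAffine.baseChange L).Point

open scoped Classical in
noncomputable instance instPt (E : WeierstrassCurve F) (L : IntermediateField F Ω) :
    AddCommGroup (Pt E L) := inferInstanceAs (AddCommGroup (E.toAffine.baseChange L).Point)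

/-- the action of `σ ∈ Gal(L/F)` on `E(L)` -/
noncomputable def galHom (E : WeierstrassCurve F) (L : IntermediateField F Ω) (σ : L ≃ₐ[F] L) :
    Module.End ℤ (Pt E L) := by
  classical
  exact (WeierstrassCurve.Affine.Point.map (W' := E.toAffine) (σ : L →ₐ[F] L)).toIntLinearMap

theorem galHom_one (E : WeierstrassCurve F) (L : IntermediateField F Ω) : galHom E L 1 = 1 := by
  ext P
  cases P <;> rfl

theorem galHom_mul (E : WeierstrassCurve F) (L : IntermediateField F Ω) (σ τ : L ≃ₐ[F] L) :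
    galHom E L (σ * τ) = galHom E L σ * galHom E L τ := by
  ext P
  cases P <;> rfl

/-- The action of `Gal(L/F)` on `E(L)`. -/
noncomputable def galAct (E : WeierstrassCurve F) (L : IntermediateField F Ω) :
    (L ≃ₐ[F] L) →* Module.End ℤ (Pt E L) where
  toFun := galHom E L
  map_one' := galHom_one E L
  map_mul' := galHom_mul E L

/-- For a chain of fields `C l`: the points `a ∈ E(L)` such that at every prime `w ∣ 𝔩` of `L` and
for all `l < m` of the parity of `s` the local trace of `a` from `L_w` to the completion of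
`C (l + 1)` is a point over the completion of `C l`. -/
noncomputable def locS (E : WeierstrassCurve F) (L : IntermediateField F Ω)
    [FiniteDimensional F L] (𝔩 : Ideal (𝓞 F)) (C : ℕ → IntermediateField F Ω) (m s : ℕ) :
    Submodule ℤ (Pt E L) :=
  ⨅ (w : Ideal (𝓞 L)) (_ : Over L w 𝔩) (l : ℕ) (_ : l < m ∧ l % 2 = s),
    (fixedBy (galAct E L) (decomp L w (C l))).comap (nrm (galAct E L) (decomp L w (C (l + 1))))

section

variable [Fact p.Prime] (T : Layers p F Ω)

theorem finP (k : ℕ) : FiniteDimensional F (T.P k) :=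
  Module.finite_of_finrank_pos (by rw [T.finrank_P]; exact pow_pos (Fact.out : p.Prime).pos k)

theorem finQ (k : ℕ) : FiniteDimensional F (T.Q k) :=
  Module.finite_of_finrank_pos (by rw [T.finrank_Q]; exact pow_pos (Fact.out : p.Prime).pos k)

instance instFinP (k : ℕ) : FiniteDimensional F (T.P k) := finP T k

instance instFinQ (k : ℕ) : FiniteDimensional F (T.Q k) := finQ T k

theorem finK (m n : ℕ) : FiniteDimensional F (T.K m n) :=
  inferInstanceAs (FiniteDimensional F ↥(T.P m ⊔ T.Q n))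

instance instFinK (m n : ℕ) : FiniteDimensional F (T.K m n) := finK T m n

/-- The group `E^{s,z}(K_{m,n})` (`s`, `z` are `0` for plus and `1` for minus) of the points
`a ∈ E(K_{m,n})` such that at every prime `w ∣ 𝔭` of `K_{m,n}` and for all `l < m` of the parity of
`s` the local trace of `a` from `K_{m,n,w}` to `K_{l+1,n,w}` is a point over `K_{l,n,w}`, and
likewise for `𝔮`, `z` and the second index. -/
noncomputable def signed (E : WeierstrassCurve F) (m n s z : ℕ) :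
    Submodule ℤ (Pt E (T.K m n)) :=
  locS E (T.K m n) T.𝔭 (fun l => T.K l n) m s ⊓ locS E (T.K m n) T.𝔮 (fun l => T.K m l) n z

end

end Pool.Agent.Lib.MP_c4714e_nt
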