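import Pool.Agent.Lib.MP_c4714e_nt.Main
import Pool.Agent.Lib.MP_c4714e_nt.Card

/-! The ranks of the signed Mordell-Weil groups over the layers. -/

set_option autoImplicit false

namespace Pool.Agent.Lib.MP_c4714e_nt

open NumberField IntermediateField Module Finset TensorProduct

/-- the last level which matters for the sign `s` -/
def red (s m : ℕ) : ℕ := if 0 < m ∧ (m - 1) % 2 = s then m - 1 else m

theorem red_le (s m : ℕ) : red s m ≤ m := by
  unfold red
  split_ifs <;> omega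

theorem le_red {i m : ℕ} (h : i ≤ m) : i ≤ red (i % 2) m := by
  unfold red
  split_ifs <;> omega

theorem coef_add {n i : ℕ} (h : i ≤ n) :
    coef 0 n i + coef 1 n i = (if i = n then 1 else 0) + (if i = 0 then 1 else 0) := by
  unfold coef
  rcases Nat.eq_zero_or_pos i with rfl | hi
  · rcases Nat.eq_zero_or_pos n with rfl | hn
    · simp
    · simp [hn, hn.ne]
  · have e1 : (if i = 0 ∨ (i - 1) % 2 ≠ 0 then (1 : ℤ) else 0) +
        (if i = 0 ∨ (i - 1) % 2 ≠ 1 then (1 : ℤ) else 0) = 1 := by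
      rcases Nat.mod_two_eq_zero_or_one (i - 1) with h1 | h1 <;> simp [h1, hi.ne']
    have e2 : (if i < n ∧ i % 2 ≠ 0 then (1 : ℤ) else 0) +
        (if i < n ∧ i % 2 ≠ 1 then (1 : ℤ) else 0) = if i < n then 1 else 0 := by
      rcases Nat.mod_two_eq_zero_or_one i with h1 | h1 <;> simp [h1]
    have e3 : (if i < n then (1 : ℤ) else 0) = 1 - (if i = n then 1 else 0) := by
      rcases h.eq_or_lt with h1 | h1
      · simp [h1]
      · simp [h1, h1.ne]
    rw [if_neg hi.ne', add_zero]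
    linarith

theorem coef_red {s m i : ℕ} (hm : 0 < m) (h : (m - 1) % 2 = s) (hi : i < m) :
    coef s m i = coef s (m - 1) i := by
  unfold coef
  congr 2
  by_cases h1 : i < m - 1
  · simp [h1, hi]
  · have h2 : i = m - 1 := by omega
    subst h2
    simp [h]

theorem coef_top {s m : ℕ} (hm : 0 < m) (h : (m - 1) % 2 = s) : coef s m m = 0 := by
  unfold coef
  simp [h, hm.ne']

theorem sum_red {M : Type*} [AddCommGroup M] (s m : ℕ) (φ : ℕ → M) :
    ∑ i ∈ range (red s m + 1), coef s (red s m) i • φ i =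
      ∑ i ∈ range (m + 1), coef s m i • φ i := by
  unfold red
  split_ifs with h
  · obtain ⟨hm, h⟩ := h
    rw [sum_range_succ _ m, coef_top hm h, zero_smul, add_zero, Nat.sub_add_cancel hm]
    exact sum_congr rfl fun i hi => by rw [coef_red hm h (mem_range.1 hi)]
  · rfl

theorem sum_two {M : Type*} [AddCommGroup M] (n : ℕ) (φ : ℕ → M) :
    ∑ i ∈ range (n + 1), coef 0 n i • φ i + ∑ i ∈ range (n + 1), coef 1 n i • φ i =
      φ n + φ 0 := by
  rw [← sum_add_distrib, sum_congr rfl (g := fun i => (if i = n then φ i else 0) +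
    (if i = 0 then φ i else 0))]
  · rw [sum_add_distrib, sum_ite_eq', sum_ite_eq']
    simp
  · intro i hi
    rw [← add_smul, coef_add (Nat.lt_succ_iff.1 (mem_range.1 hi)), add_smul]
    congr 1 <;> split_ifs <;> simp

theorem rank_tensor (A : Type) [AddCommGroup A] :
    Module.rank ℤ A = Module.rank ℚ (ℚ ⊗[ℤ] A) := by
  have h := rank_transfer (⊤ : Submodule ℤ A) (⊤ : Submodule ℚ (ℚ ⊗[ℤ] A))
    (fun _ _ => Submodule.mem_top) (fun _ _ => ⟨1, one_ne_zero, Submodule.mem_top⟩)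
  rwa [rank_top, rank_top] at h

variable {p : ℕ} {F Ω : Type} [Field F] [NumberField F] [Field Ω] [Algebra F Ω]
  [IsAbelianGalois F Ω] [Fact p.Prime] (T : Layers p F Ω) (E : WeierstrassCurve F)

/-- the groups `Gal(K_{m,n} / K_{l,n})` -/
def gI (m n l : ℕ) : Subgroup (T.K m n ≃ₐ[F] T.K m n) := fixG (T.K m n) (T.K l n)

/-- the groups `Gal(K_{m,n} / K_{m,l})` -/
def gJ (m n l : ℕ) : Subgroup (T.K m n ≃ₐ[F] T.K m n) := fixG (T.K m n) (T.K m l)

theorem gI_anti (m n : ℕ) : Antitone (gI T m n) := fun _ _ hab _ hσ x hx =>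
  hσ x (K_mono T hab le_rfl hx)

theorem gJ_anti (m n : ℕ) : Antitone (gJ T m n) := fun _ _ hab _ hσ x hx =>
  hσ x (K_mono T le_rfl hab hx)

theorem fixG_self (m n : ℕ) : fixG (T.K m n) (T.K m n) = ⊥ := by
  rw [eq_bot_iff]
  intro σ hσ
  rw [Subgroup.mem_bot]
  ext x
  exact congrArg Subtype.val (hσ x x.2)

theorem rank_pt {i m j n : ℕ} (h1 : i ≤ m) (h2 : j ≤ n) : Module.rank ℤ (Pt E (T.K i j)) =
    Module.rank ℚ (Usp (galAct E (T.K m n)) (gI T m n) (gJ T m n) i j) := by
  rw [← rank_fixed_sub]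
  have h3 := range_eq T E h1 h2
  have h4 : Module.rank ℤ (LinearMap.range (mapPt E (inclusion (K_mono T h1 h2)))) =
      Module.rank ℤ (Pt E (T.K i j)) :=
    rank_range_of_injective _ (mapPt_injective E _)
  rw [← h4, h3]
  rfl

theorem rank_sg (m n s z : ℕ) : Module.rank ℤ (signed T E m n s z) =
    Module.rank ℚ (Wsp (galAct E (T.K m n)) (gI T m n) (gJ T m n) m n s z) := by
  rw [signed_eq]
  exact rank_signed_sub (galAct E (T.K m n)) (gI T m n) (gJ T m n) (gI_anti T m n)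
    (gJ_anti T m n) m n s z

/-- the layer formula, if the rank of `E(K_{m,n})` is finite -/
theorem rank_signed (m n s z : ℕ) (hfin : rkE (Pt E (T.K m n)) ≠ ⊤) :
    (finrank ℤ (signed T E m n s z) : ℤ) =
      ∑ i ∈ range (m + 1), coef s m i •
        ∑ j ∈ range (n + 1), coef z n j • (finrank ℤ (Pt E (T.K i j)) : ℤ) := by
  have : FiniteDimensional ℚ (ℚ ⊗[ℤ] Pt E (T.K m n)) :=
    (rkE_ne_top_iff (rank_tensor _)).1 hfin
  rw [finrank_eq_of_rank (rank_sg T E m n s z), finrank_Wsp (galAct E (T.K m n)) (gI T m n)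
    (gJ T m n) (gI_anti T m n) (gJ_anti T m n) m n s z (fixG_self T m n) (fixG_self T m n)]
  refine sum_congr rfl fun i hi => ?_
  rw [smul_sum]
  refine sum_congr rfl fun j hj => ?_
  rw [← finrank_eq_of_rank (rank_pt T E (Nat.lt_succ_iff.1 (mem_range.1 hi))
    (Nat.lt_succ_iff.1 (mem_range.1 hj))), smul_eq_mul, smul_eq_mul]
  ring

theorem fin_lower {m n i j : ℕ} (h1 : i ≤ m) (h2 : j ≤ n) (hfin : rkE (Pt E (T.K m n)) ≠ ⊤) :
    rkE (Pt E (T.K i j)) ≠ ⊤ := by
  have : FiniteDimensional ℚ (ℚ ⊗[ℤ] Pt E (T.K m n)) :=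
    (rkE_ne_top_iff (rank_tensor _)).1 hfin
  exact (rkE_ne_top_iff (rank_pt T E h1 h2)).2 inferInstance

theorem fin_signed {m n : ℕ} (s z : ℕ) (hfin : rkE (Pt E (T.K m n)) ≠ ⊤) :
    rkE (signed T E m n s z) ≠ ⊤ := by
  have : FiniteDimensional ℚ (ℚ ⊗[ℤ] Pt E (T.K m n)) :=
    (rkE_ne_top_iff (rank_tensor _)).1 hfin
  exact (rkE_ne_top_iff (rank_sg T E m n s z)).2 inferInstance

theorem rank_red (m n s z : ℕ) (hfin : rkE (Pt E (T.K m n)) ≠ ⊤) :
    finrank ℤ (signed T E (red s m) (red z n) s z) = finrank ℤ (signed T E m n s z) := by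
  have h : (finrank ℤ (signed T E (red s m) (red z n) s z) : ℤ) =
      (finrank ℤ (signed T E m n s z) : ℤ) := by
    rw [rank_signed T E m n s z hfin, rank_signed T E (red s m) (red z n) s z
      (fin_lower T E (red_le s m) (red_le z n) hfin), sum_red]
    exact sum_congr rfl fun i _ => by rw [sum_red z n]
  exact_mod_cast h

theorem rank_sum (m n : ℕ) (hfin : rkE (Pt E (T.K m n)) ≠ ⊤) :
    finrank ℤ (Pt E (T.K m n)) + finrank ℤ (Pt E (T.K m 0)) + finrank ℤ (Pt E (T.K 0 n)) +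
      finrank ℤ (Pt E (T.K 0 0)) = ∑ s ∈ range 2, ∑ z ∈ range 2,
        finrank ℤ (signed T E m n s z) := by
  have h : (finrank ℤ (signed T E m n 0 0) : ℤ) + finrank ℤ (signed T E m n 0 1) +
      finrank ℤ (signed T E m n 1 0) + finrank ℤ (signed T E m n 1 1) =
      finrank ℤ (Pt E (T.K m n)) + finrank ℤ (Pt E (T.K m 0)) + finrank ℤ (Pt E (T.K 0 n)) +
      finrank ℤ (Pt E (T.K 0 0)) := by
    simp only [rank_signed T E m n _ _ hfin]
    have h1 : ∀ s : ℕ, ∑ i ∈ range (m + 1), coef s m i •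
        ∑ j ∈ range (n + 1), coef 0 n j • (finrank ℤ (Pt E (T.K i j)) : ℤ) +
        ∑ i ∈ range (m + 1), coef s m i •
        ∑ j ∈ range (n + 1), coef 1 n j • (finrank ℤ (Pt E (T.K i j)) : ℤ) =
        ∑ i ∈ range (m + 1), coef s m i •
          ((finrank ℤ (Pt E (T.K i n)) : ℤ) + finrank ℤ (Pt E (T.K i 0))) := by
      intro s
      rw [← sum_add_distrib]
      refine sum_congr rfl fun i _ => ?_
      rw [← smul_add, sum_two n (fun j => (finrank ℤ (Pt E (T.K i j)) : ℤ))]
    have h2 := sum_two m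
      (fun i => (finrank ℤ (Pt E (T.K i n)) : ℤ) + finrank ℤ (Pt E (T.K i 0)))
    have h3 := h1 0
    have h4 := h1 1
    linarith
  simp only [sum_range_succ, sum_range_zero, zero_add]
  have h' : finrank ℤ (signed T E m n 0 0) + finrank ℤ (signed T E m n 0 1) +
      finrank ℤ (signed T E m n 1 0) + finrank ℤ (signed T E m n 1 1) =
      finrank ℤ (Pt E (T.K m n)) + finrank ℤ (Pt E (T.K m 0)) + finrank ℤ (Pt E (T.K 0 n)) +
      finrank ℤ (Pt E (T.K 0 0)) := by exact_mod_cast h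
  linarith

/-- if the four signed ranks are finite, so is the rank of `E(K_{m,n})` -/
theorem fin_of_signed (m n : ℕ)
    (h : ∀ s < 2, ∀ z < 2, rkE (signed T E (red s m) (red z n) s z) ≠ ⊤) :
    ∀ k i j : ℕ, i + j = k → i ≤ m → j ≤ n → rkE (Pt E (T.K i j)) ≠ ⊤ := by
  intro k
  induction k with
  | zero =>
    intro i j hk hi hj
    have h1 := le_red hi
    have h2 := le_red hj
    have hW := (rkE_ne_top_iff (rank_sg T E _ _ _ _)).1
      (h (i % 2) (Nat.mod_lt _ two_pos) (j % 2) (Nat.mod_lt _ two_pos))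
    rw [rkE_ne_top_iff (rank_pt T E h1 h2)]
    exact finite_step _ _ _ (gI_anti T _ _) (gJ_anti T _ _) (Or.inl (by omega))
      (Or.inl (by omega)) hW (fun h => absurd h (by omega)) (fun h => absurd h (by omega))
  | succ k ih =>
    intro i j hk hi hj
    have h1 := le_red hi
    have h2 := le_red hj
    have hW := (rkE_ne_top_iff (rank_sg T E _ _ _ _)).1
      (h (i % 2) (Nat.mod_lt _ two_pos) (j % 2) (Nat.mod_lt _ two_pos))
    rw [rkE_ne_top_iff (rank_pt T E h1 h2)]
    refine finite_step _ _ _ (gI_anti T _ _) (gJ_anti T _ _) (by omega)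
      (by omega) hW (fun h0 => ?_) (fun h0 => ?_)
    · exact (rkE_ne_top_iff (rank_pt T E (by omega) h2)).1
        (ih (i - 1) j (by omega) (by omega) hj)
    · exact (rkE_ne_top_iff (rank_pt T E h1 (by omega))).1
        (ih i (j - 1) (by omega) hi (by omega))

/-- **The rank identity.** -/
theorem rank_identity (m n : ℕ) :
    rkE (Pt E (T.K m n)) + rkE (Pt E (T.K m 0)) + rkE (Pt E (T.K 0 n)) + rkE (Pt E (T.K 0 0)) =
      ∑ s ∈ range 2, ∑ z ∈ range 2, rkE (signed T E (red s m) (red z n) s z) := by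
  by_cases hfin : rkE (Pt E (T.K m n)) = ⊤
  · rw [hfin, top_add, top_add, top_add, eq_comm]
    by_contra hne
    have h1 : ∀ s < 2, ∀ z < 2, rkE (signed T E (red s m) (red z n) s z) ≠ ⊤ := by
      intro s hs z hz htop
      apply hne
      refine WithTop.sum_eq_top.2 ⟨s, mem_range.2 hs, ?_⟩
      exact WithTop.sum_eq_top.2 ⟨z, mem_range.2 hz, htop⟩
    exact fin_of_signed T E m n h1 (m + n) m n rfl le_rfl le_rfl hfin
  · have e1 := rkE_eq_finrank hfin
    have e2 := rkE_eq_finrank (fin_lower T E le_rfl (Nat.zero_le n) hfin)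
    have e3 := rkE_eq_finrank (fin_lower T E (Nat.zero_le m) le_rfl hfin)
    have e4 := rkE_eq_finrank (fin_lower T E (Nat.zero_le m) (Nat.zero_le n) hfin)
    have e5 : ∀ s z, rkE (signed T E (red s m) (red z n) s z) =
        (finrank ℤ (signed T E m n s z) : ℕ∞) := by
      intro s z
      rw [rkE_eq_finrank (fin_signed T E s z (fin_lower T E (red_le s m) (red_le z n) hfin)),
        rank_red T E m n s z hfin]
    simp only [e5]
    rw [e1, e2, e3, e4]
    exact_mod_cast rank_sum T E m n hfin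

end Pool.Agent.Lib.MP_c4714e_nt
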