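import Pool.Agent.Lib.MP_c4714e_nt.Defs

/-! Points over subfields. -/

set_option autoImplicit false

namespace Pool.Agent.Lib.MP_c4714e_nt

open NumberField IntermediateField Module

variable {F Ω : Type} [Field F] [NumberField F] [Field Ω] [Algebra F Ω]
  (E : WeierstrassCurve F)

theorem some_ext {L : IntermediateField F Ω} {x y x' y' : L}
    (h : (E.toAffine.baseChange L).Nonsingular x y)
    (h' : (E.toAffine.baseChange L).Nonsingular x' y') (hx : x = x') (hy : y = y') :
    (WeierstrassCurve.Affine.Point.some x y h : Pt E L) =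
      WeierstrassCurve.Affine.Point.some x' y' h' := by
  subst hx hy
  rfl

theorem some_inj {L : IntermediateField F Ω} {x y x' y' : L}
    (h : (E.toAffine.baseChange L).Nonsingular x y)
    (h' : (E.toAffine.baseChange L).Nonsingular x' y')
    (e : (WeierstrassCurve.Affine.Point.some x y h : Pt E L) =
      WeierstrassCurve.Affine.Point.some x' y' h') : x = x' ∧ y = y' :=
  WeierstrassCurve.Affine.Point.some.inj e

/-- the homomorphism `E(L') → E(L)` -/
noncomputable def mapPt {L' L : IntermediateField F Ω} (f : L' →ₐ[F] L) : Pt E L' →ₗ[ℤ] Pt E L := by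
  classical
  exact (WeierstrassCurve.Affine.Point.map (W' := E.toAffine) f).toIntLinearMap

theorem mapPt_some {L' L : IntermediateField F Ω} (f : L' →ₐ[F] L) {x y : L'}
    (h : (E.toAffine.baseChange L').Nonsingular x y) :
    mapPt E f (WeierstrassCurve.Affine.Point.some x y h) =
      WeierstrassCurve.Affine.Point.some (f x) (f y)
        ((E.toAffine.baseChange_nonsingular f.injective ..).mpr h) := by
  classical
  exact WeierstrassCurve.Affine.Point.map_some (W' := E.toAffine) f h

theorem mapPt_injective {L' L : IntermediateField F Ω} (f : L' →ₐ[F] L) :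
    Function.Injective (mapPt E f) := by
  classical
  exact WeierstrassCurve.Affine.Point.map_injective f

theorem galAct_some {L : IntermediateField F Ω} (σ : L ≃ₐ[F] L) {x y : L}
    (h : (E.toAffine.baseChange L).Nonsingular x y) :
    galAct E L σ (WeierstrassCurve.Affine.Point.some x y h) =
      WeierstrassCurve.Affine.Point.some (σ x) (σ y)
        ((E.toAffine.baseChange_nonsingular (f := (σ : L →ₐ[F] L)) σ.injective ..).mpr h) := by
  classical
  exact WeierstrassCurve.Affine.Point.map_some (W' := E.toAffine) (σ : L →ₐ[F] L) h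

theorem galAct_mapPt {L' L : IntermediateField F Ω} (f : L' →ₐ[F] L) (σ : L ≃ₐ[F] L)
    (h : ∀ x, σ (f x) = f x) (b : Pt E L') : galAct E L σ (mapPt E f b) = mapPt E f b := by
  rcases b with _ | ⟨x, y, hxy⟩
  · have : mapPt E f WeierstrassCurve.Affine.Point.zero = 0 := map_zero (mapPt E f)
    rw [this, map_zero]
  · rw [mapPt_some, galAct_some]
    exact some_ext E _ _ (h x) (h y)

theorem fixed_coord {L : IntermediateField F Ω} (σ : L ≃ₐ[F] L) {x y : L}
    (h : (E.toAffine.baseChange L).Nonsingular x y)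
    (hσ : galAct E L σ (WeierstrassCurve.Affine.Point.some x y h) =
      WeierstrassCurve.Affine.Point.some x y h) : σ x = x ∧ σ y = y := by
  rw [galAct_some] at hσ
  exact some_inj E _ _ hσ

theorem mem_range_mapPt {L' L : IntermediateField F Ω} (h : L' ≤ L) {x y : L}
    (hxy : (E.toAffine.baseChange L).Nonsingular x y) (hx : (x : Ω) ∈ L') (hy : (y : Ω) ∈ L') :
    WeierstrassCurve.Affine.Point.some x y hxy ∈ LinearMap.range (mapPt E (inclusion h)) := by
  have hxy' : (E.toAffine.baseChange L').Nonsingular ⟨x, hx⟩ ⟨y, hy⟩ :=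
    (E.toAffine.baseChange_nonsingular (f := inclusion h) (inclusion h).injective
      ⟨x, hx⟩ ⟨y, hy⟩).mp hxy
  refine ⟨WeierstrassCurve.Affine.Point.some _ _ hxy', ?_⟩
  rw [mapPt_some]
  exact some_ext E _ _ rfl rfl

theorem mem_range_of {L' L : IntermediateField F Ω} (h : L' ≤ L) (S1 S2 : Subgroup (L ≃ₐ[F] L))
    (hS : ∀ x : L, (∀ σ ∈ S1, σ x = x) → (∀ σ ∈ S2, σ x = x) → (x : Ω) ∈ L') (a : Pt E L)
    (h1 : ∀ σ ∈ S1, galAct E L σ a = a) (h2 : ∀ σ ∈ S2, galAct E L σ a = a) :
    a ∈ LinearMap.range (mapPt E (inclusion h)) := by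
  rcases a with _ | ⟨x, y, hxy⟩
  · exact Submodule.zero_mem (LinearMap.range (mapPt E (inclusion h)))
  · exact mem_range_mapPt E h hxy
      (hS x (fun σ hσ => (fixed_coord E σ hxy (h1 σ hσ)).1)
        fun σ hσ => (fixed_coord E σ hxy (h2 σ hσ)).1)
      (hS y (fun σ hσ => (fixed_coord E σ hxy (h1 σ hσ)).2)
        fun σ hσ => (fixed_coord E σ hxy (h2 σ hσ)).2)

end Pool.Agent.Lib.MP_c4714e_nt
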