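import Pool.Agent.Lib.MP_c4714e_nt.Tow
import Pool.Agent.Lib.MP_c4714e_nt.Pts

/-! The ranks of the signed Mordell-Weil groups. -/

set_option autoImplicit false

namespace Pool.Agent.Lib.MP_c4714e_nt

open NumberField IntermediateField Module

variable {p : ℕ} {F Ω : Type} [Field F] [NumberField F] [Field Ω] [Algebra F Ω]
  [IsAbelianGalois F Ω] [Fact p.Prime] (T : Layers p F Ω) (E : WeierstrassCurve F)

theorem exists_prime (L : IntermediateField F Ω) [FiniteDimensional F L] (𝔩 : Ideal (𝓞 F))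
    (h : 𝔩.IsPrime) : ∃ w : Ideal (𝓞 L), w.IsPrime ∧
      w.comap (algebraMap (𝓞 F) (𝓞 L)) = 𝔩 := by
  have : NumberField L := NumberField.of_module_finite F L
  obtain ⟨⟨w, hw1, hw2⟩⟩ := (inferInstance : Nonempty (𝔩.primesOver (𝓞 L)))
  exact ⟨w, hw1, hw2.over.symm⟩

theorem mem_locS {L : IntermediateField F Ω} [FiniteDimensional F L] {𝔩 : Ideal (𝓞 F)}
    {C : ℕ → IntermediateField F Ω} {m s : ℕ} {a : Pt E L} :
    a ∈ locS E L 𝔩 C m s ↔ ∀ w : Ideal (𝓞 L), Over L w 𝔩 → ∀ l, l < m ∧ l % 2 = s →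
      nrm (galAct E L) (decomp L w (C (l + 1))) a ∈
        fixedBy (galAct E L) (decomp L w (C l)) := by
  simp only [locS, Submodule.mem_iInf, Submodule.mem_comap]

theorem signed_eq (m n s z : ℕ) : signed T E m n s z =
    signedPart (galAct E (T.K m n)) (fun l => fixG (T.K m n) (T.K l n)) s m ⊓
      signedPart (galAct E (T.K m n)) (fun l => fixG (T.K m n) (T.K m l)) z n := by
  ext a
  rw [signed, Submodule.mem_inf, Submodule.mem_inf, mem_locS, mem_locS]
  constructor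
  · intro h
    obtain ⟨w, hw, hw2⟩ := exists_prime (T.K m n) T.𝔭 T.prime_𝔭
    obtain ⟨w', hw', hw2'⟩ := exists_prime (T.K m n) T.𝔮 T.prime_𝔮
    constructor
    · intro l hl hs
      have := h.1 w ⟨hw, hw2⟩ l ⟨hl, hs⟩
      rwa [decomp_P T m n _ w hw hw2, decomp_P T m n _ w hw hw2] at this
    · intro l hl hs
      have := h.2 w' ⟨hw', hw2'⟩ l ⟨hl, hs⟩
      rwa [decomp_Q T m n _ w' hw' hw2', decomp_Q T m n _ w' hw' hw2'] at this
  · rintro ⟨h1, h2⟩
    constructor
    · rintro w ⟨hw, hw2⟩ l ⟨hl, hs⟩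
      rw [decomp_P T m n _ w hw hw2, decomp_P T m n _ w hw hw2]
      exact h1 l hl hs
    · rintro w ⟨hw, hw2⟩ l ⟨hl, hs⟩
      rw [decomp_Q T m n _ w hw hw2, decomp_Q T m n _ w hw hw2]
      exact h2 l hl hs

/-- an element of `L` fixed by the elements of `Gal(L/F)` which fix `K'` lies in `K'` -/
theorem mem_of_fixed (L K' : IntermediateField F Ω) [FiniteDimensional F L] (h : K' ≤ L) (x : L)
    (hx : ∀ σ ∈ fixG L K', σ x = x) : (x : Ω) ∈ K' := by
  let K1 : IntermediateField F L := IntermediateField.restrict h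
  have h1 : x ∈ K1 := by
    have : IsGalois F L := inferInstance
    rw [← IsGalois.fixedField_fixingSubgroup K1, IntermediateField.mem_fixedField_iff]
    intro σ hσ
    apply hx σ
    intro y hy
    rw [IntermediateField.mem_fixingSubgroup_iff] at hσ
    exact hσ y ((IntermediateField.mem_restrict h y).2 hy)
  exact (IntermediateField.mem_restrict h x).1 h1

theorem incl_fixed {L' L K' : IntermediateField F Ω} (h : L' ≤ L) (h' : L' ≤ K')
    (σ : L ≃ₐ[F] L) (hσ : σ ∈ fixG L K') (x : L') : σ (inclusion h x) = inclusion h x := by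
  apply hσ
  rw [IntermediateField.coe_inclusion]
  exact h' x.2

theorem mapPt_mem_fixed {L' L K' : IntermediateField F Ω} (h : L' ≤ L) (h' : L' ≤ K')
    (b : Pt E L') : mapPt E (inclusion h) b ∈ fixedBy (galAct E L) (fixG L K') :=
  fun σ hσ => galAct_mapPt E _ σ (incl_fixed h h' σ hσ) b

theorem range_eq {i m j n : ℕ} (h1 : i ≤ m) (h2 : j ≤ n) :
    LinearMap.range (mapPt E (inclusion (K_mono T h1 h2))) =
      (fixedBy (galAct E (T.K m n)) (fixG (T.K m n) (T.K i n)) ⊓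
      fixedBy (galAct E (T.K m n)) (fixG (T.K m n) (T.K m j)) :
        Submodule ℤ (Pt E (T.K m n))) := by
  apply le_antisymm
  · rintro _ ⟨b, rfl⟩
    exact ⟨mapPt_mem_fixed E _ (K_mono T le_rfl h2) b, mapPt_mem_fixed E _ (K_mono T h1 le_rfl) b⟩
  · rintro a ⟨ha1, ha2⟩
    refine mem_range_of E (K_mono T h1 h2) (fixG (T.K m n) (T.K i n))
      (fixG (T.K m n) (T.K m j)) (fun x hx1 hx2 => ?_) a ha1 ha2
    rw [← K_inf T h1 h2]
    exact ⟨mem_of_fixed _ _ (K_mono T h1 le_rfl) x hx1,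
      mem_of_fixed _ _ (K_mono T le_rfl h2) x hx2⟩

end Pool.Agent.Lib.MP_c4714e_nt
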