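import Mathlib

/-! A prime that is totally ramified in `A` and unramified in `B` does not split in `A B / B`. -/

set_option autoImplicit false
set_option linter.deprecated false

namespace Pool.Agent.Lib.MP_c4714e_nt

open NumberField Ideal

variable {F A B L : Type*} [Field F] [NumberField F] [Field A] [NumberField A] [Field B]
  [NumberField B] [Field L] [NumberField L] [Algebra F A] [Algebra F B] [Algebra F L]
  [Algebra A L] [Algebra B L] [IsScalarTower F A L] [IsScalarTower F B L]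

theorem map_le_pow (𝔭 : Ideal (𝓞 F)) (u : Ideal (𝓞 A)) [hu : u.IsPrime] (d : ℕ)
    (h : 𝔭.map (algebraMap (𝓞 F) (𝓞 A)) = u ^ d) (w : Ideal (𝓞 L)) [w.IsPrime]
    (hw : w.comap (algebraMap (𝓞 F) (𝓞 L)) = 𝔭) :
    𝔭.map (algebraMap (𝓞 F) (𝓞 L)) ≤ w ^ d := by
  have e : algebraMap (𝓞 F) (𝓞 L) = (algebraMap (𝓞 A) (𝓞 L)).comp (algebraMap (𝓞 F) (𝓞 A)) := by
    ext x
    exact IsScalarTower.algebraMap_apply F A L (x : F)
  have h1 : u.map (algebraMap (𝓞 A) (𝓞 L)) ≤ w := by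
    rw [Ideal.map_le_iff_le_comap]
    have h2 : u ^ d ≤ w.comap (algebraMap (𝓞 A) (𝓞 L)) := by
      rw [← h, Ideal.map_le_iff_le_comap, Ideal.comap_comap, ← e, hw]
    exact Ideal.IsPrime.le_of_pow_le h2
  rw [e, ← Ideal.map_map, h, Ideal.map_pow]
  exact Ideal.pow_right_mono h1 d

/-- the ramification index over `B` is at least `d` -/
theorem le_ramIdx (𝔭 : Ideal (𝓞 F)) (u : Ideal (𝓞 A)) [hu : u.IsPrime]
    (d : ℕ) (h : 𝔭.map (algebraMap (𝓞 F) (𝓞 A)) = u ^ d)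
    (hB : Squarefree (𝔭.map (algebraMap (𝓞 F) (𝓞 B))))
    (w : Ideal (𝓞 L)) [w.IsPrime] (hw : w.comap (algebraMap (𝓞 F) (𝓞 L)) = 𝔭) :
    w.comap (algebraMap (𝓞 B) (𝓞 L)) ≠ ⊥ ∧
    d ≤ Ideal.ramificationIdx' (w.comap (algebraMap (𝓞 B) (𝓞 L))) w := by
  have e : algebraMap (𝓞 F) (𝓞 L) = (algebraMap (𝓞 B) (𝓞 L)).comp (algebraMap (𝓞 F) (𝓞 B)) := by
    ext x
    exact IsScalarTower.algebraMap_apply F B L (x : F)
  set v := w.comap (algebraMap (𝓞 B) (𝓞 L)) with hv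
  have hvp : v.IsPrime := Ideal.comap_isPrime _ _
  set I := 𝔭.map (algebraMap (𝓞 F) (𝓞 B)) with hI
  have hIv : I ≤ v := by
    rw [hI, Ideal.map_le_iff_le_comap, hv, Ideal.comap_comap, ← e, hw]
  have hv0 : v ≠ ⊥ := by
    intro h1
    rw [h1, le_bot_iff] at hIv
    exact hB.ne_zero hIv
  refine ⟨hv0, ?_⟩
  have hvprime : Prime v := Ideal.prime_of_isPrime hv0 hvp
  have hw0 : w ≠ ⊥ := by
    intro h1
    apply hv0
    rw [hv, h1]
    exact Ideal.comap_bot_of_injective _ (RingOfIntegers.algebraMap.injective B L)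
  have hwprime : Prime w := Ideal.prime_of_isPrime hw0 inferInstance
  obtain ⟨c, hc⟩ := Ideal.dvd_iff_le.2 hIv
  have hcv : ¬ c ≤ v := by
    intro h1
    obtain ⟨c', hc'⟩ := Ideal.dvd_iff_le.2 h1
    have h2 : v * v ∣ I := ⟨c', by rw [hc, hc', mul_assoc]⟩
    exact hvprime.not_unit (hB v h2)
  have h1 : w ^ d ∣ v.map (algebraMap (𝓞 B) (𝓞 L)) := by
    have h2 : w ^ d ∣ v.map (algebraMap (𝓞 B) (𝓞 L)) * c.map (algebraMap (𝓞 B) (𝓞 L)) := by
      rw [← Ideal.map_mul, ← hc, Ideal.dvd_iff_le, hI, Ideal.map_map, ← e]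
      exact map_le_pow 𝔭 u d h w hw
    refine hwprime.pow_dvd_of_dvd_mul_right d ?_ h2
    rw [Ideal.dvd_iff_le, Ideal.map_le_iff_le_comap]
    exact hcv
  have hinj : Function.Injective (algebraMap (𝓞 B) (𝓞 L)) := RingOfIntegers.algebraMap.injective B L
  have hmap : v.map (algebraMap (𝓞 B) (𝓞 L)) ≠ ⊥ := by
    rwa [Ne, Ideal.map_eq_bot_iff_of_injective hinj]
  rw [IsDedekindDomain.ramificationIdx'_eq_multiplicity hmap inferInstance]
  exact FiniteMultiplicity.le_multiplicity_of_pow_dvd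
    (FiniteMultiplicity.of_not_isUnit hwprime.not_unit hmap) h1

/-- the degree over `B` is at least `d` -/
theorem le_finrank (𝔭 : Ideal (𝓞 F)) [𝔭.IsPrime] (u : Ideal (𝓞 A)) [hu : u.IsPrime]
    (d : ℕ) (h : 𝔭.map (algebraMap (𝓞 F) (𝓞 A)) = u ^ d)
    (hB : Squarefree (𝔭.map (algebraMap (𝓞 F) (𝓞 B)))) : d ≤ Module.finrank B L := by
  obtain ⟨⟨w, hw1, hw2⟩⟩ := (inferInstance : Nonempty (𝔭.primesOver (𝓞 L)))
  have hw : w.comap (algebraMap (𝓞 F) (𝓞 L)) = 𝔭 := hw2.over.symm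
  obtain ⟨h1, h2⟩ := le_ramIdx (B := B) 𝔭 u d h hB w hw
  have hvp : (w.comap (algebraMap (𝓞 B) (𝓞 L))).IsPrime := Ideal.comap_isPrime _ _
  have hvm := hvp.isMaximal h1
  have o1 : w.LiesOver (w.comap (algebraMap (𝓞 B) (𝓞 L))) := ⟨rfl⟩
  have m1 : w ∈ IsDedekindDomain.primesOverFinset (w.comap (algebraMap (𝓞 B) (𝓞 L))) (𝓞 L) :=
    (IsDedekindDomain.mem_primesOverFinset_iff h1 _).mpr ⟨hw1, o1⟩
  have hsum := Ideal.sum_ramification_inertia (𝓞 L) B L h1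
  rw [← Finset.add_sum_erase _ _ m1] at hsum
  have p1 : 0 < Ideal.inertiaDeg' (w.comap (algebraMap (𝓞 B) (𝓞 L))) w :=
    Nat.pos_of_ne_zero (Ideal.inertiaDeg'_ne_zero _ w)
  have q1 : d * 1 ≤ Ideal.ramificationIdx' (w.comap (algebraMap (𝓞 B) (𝓞 L))) w *
      Ideal.inertiaDeg' (w.comap (algebraMap (𝓞 B) (𝓞 L))) w := Nat.mul_le_mul h2 p1
  omega

theorem nonsplit (𝔭 : Ideal (𝓞 F)) (u : Ideal (𝓞 A)) [hu : u.IsPrime]
    (d : ℕ) (h : 𝔭.map (algebraMap (𝓞 F) (𝓞 A)) = u ^ d)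
    (hB : Squarefree (𝔭.map (algebraMap (𝓞 F) (𝓞 B)))) (hd : Module.finrank B L ≤ d)
    (w : Ideal (𝓞 L)) [w.IsPrime] (hw : w.comap (algebraMap (𝓞 F) (𝓞 L)) = 𝔭)
    (σ : L ≃+* L) (hσ : ∀ b : B, σ (algebraMap B L b) = algebraMap B L b) :
    w.comap (RingOfIntegers.mapRingEquiv σ) = w := by
  obtain ⟨hv0, h3⟩ := le_ramIdx (B := B) 𝔭 u d h hB w hw
  set v := w.comap (algebraMap (𝓞 B) (𝓞 L)) with hv
  have hvp : v.IsPrime := Ideal.comap_isPrime _ _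
  have hvm : v.IsMaximal := hvp.isMaximal hv0
  by_contra hne
  set w' := w.comap (RingOfIntegers.mapRingEquiv σ) with hw'
  have hw'p : w'.IsPrime := Ideal.comap_isPrime _ _
  have hw'v : w'.comap (algebraMap (𝓞 B) (𝓞 L)) = v := by
    ext x
    rw [Ideal.mem_comap, hw', Ideal.mem_comap, hv, Ideal.mem_comap]
    have : RingOfIntegers.mapRingEquiv σ (algebraMap (𝓞 B) (𝓞 L) x) =
        algebraMap (𝓞 B) (𝓞 L) x := by
      apply RingOfIntegers.ext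
      exact hσ (x : B)
    rw [this]
  have o1 : w.LiesOver v := ⟨rfl⟩
  have o2 : w'.LiesOver v := ⟨hw'v.symm⟩
  have m1 : w ∈ IsDedekindDomain.primesOverFinset v (𝓞 L) :=
    (IsDedekindDomain.mem_primesOverFinset_iff hv0 _).mpr ⟨inferInstance, o1⟩
  have m2 : w' ∈ IsDedekindDomain.primesOverFinset v (𝓞 L) :=
    (IsDedekindDomain.mem_primesOverFinset_iff hv0 _).mpr ⟨hw'p, o2⟩
  have hsum := Ideal.sum_ramification_inertia (𝓞 L) B L hv0
  rw [← Finset.add_sum_erase _ _ m1, ← Finset.add_sum_erase _ _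
    (Finset.mem_erase.2 ⟨hne, m2⟩)] at hsum
  have p1 : 0 < Ideal.inertiaDeg' v w := Nat.pos_of_ne_zero (Ideal.inertiaDeg'_ne_zero v w)
  have p2 : 0 < Ideal.inertiaDeg' v w' := Nat.pos_of_ne_zero (Ideal.inertiaDeg'_ne_zero v w')
  have p3 : 0 < Ideal.ramificationIdx' v w' := Nat.pos_of_ne_zero
    (IsDedekindDomain.ramificationIdx'_ne_zero_of_liesOver _ hv0)
  have q1 : d * 1 ≤ Ideal.ramificationIdx' v w * Ideal.inertiaDeg' v w :=
    Nat.mul_le_mul h3 p1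
  have q2 : 1 * 1 ≤ Ideal.ramificationIdx' v w' * Ideal.inertiaDeg' v w' :=
    Nat.mul_le_mul p3 p2
  omega

end Pool.Agent.Lib.MP_c4714e_nt
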