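import Pool.Agent.Lib.MP_c4714e_nt.Alg

/-! Passage from a finitely generated abelian group to a rational vector space. -/

set_option autoImplicit false

namespace Pool.Agent.Lib.MP_c4714e_nt

open Module Finset TensorProduct

section transfer

variable {A : Type*} [AddCommGroup A]

/-- `a ↦ 1 ⊗ a` -/
noncomputable def emb (A : Type*) [AddCommGroup A] : A →ₗ[ℤ] ℚ ⊗[ℤ] A := TensorProduct.mk ℤ ℚ A 1

instance : IsLocalizedModule (nonZeroDivisors ℤ) (emb A) :=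
  (isLocalizedModule_iff_isBaseChange (nonZeroDivisors ℤ) ℚ (emb A)).mpr
    (TensorProduct.isBaseChange ℤ A ℚ)

theorem emb_eq_zero {a : A} (h : emb A a = 0) : ∃ k : ℤ, k ≠ 0 ∧ k • a = 0 := by
  obtain ⟨c, hc⟩ := (IsLocalizedModule.eq_zero_iff (nonZeroDivisors ℤ) (emb A)).1 h
  exact ⟨c, nonZeroDivisors.ne_zero c.2, hc⟩

theorem exists_uniform [Module.Finite ℤ A] :
    ∃ k : ℤ, k ≠ 0 ∧ ∀ a : A, emb A a = 0 → k • a = 0 := by
  have h1 : Module.IsTorsion ℤ (Submodule.torsion ℤ A) := Submodule.torsion_isTorsion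
  have h2 := Submodule.annihilator_top_inter_nonZeroDivisors h1
  obtain ⟨k, hk1, hk2⟩ := h2
  refine ⟨k, nonZeroDivisors.ne_zero hk2, fun a ha => ?_⟩
  obtain ⟨c, hc, hca⟩ := emb_eq_zero ha
  have h3 : a ∈ Submodule.torsion ℤ A :=
    (Submodule.mem_torsion_iff a).2 ⟨⟨c, mem_nonZeroDivisors_of_ne_zero hc⟩, hca⟩
  have h4 := (Submodule.mem_annihilator.1 hk1) ⟨a, h3⟩ Submodule.mem_top
  exact congrArg Subtype.val h4

theorem finrank_transfer (B : Submodule ℤ A) (W : Submodule ℚ (ℚ ⊗[ℤ] A))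
    (h1 : ∀ a ∈ B, emb A a ∈ W) (h2 : ∀ a, emb A a ∈ W → ∃ k : ℤ, k ≠ 0 ∧ k • a ∈ B) :
    finrank ℤ B = finrank ℚ W := by
  have e : B.localized' ℚ (nonZeroDivisors ℤ) (emb A) = W := by
    ext x
    rw [Submodule.mem_localized']
    constructor
    · rintro ⟨a, ha, t, rfl⟩
      have h3 := h1 a ha
      rw [← IsLocalizedModule.mk'_cancel' (emb A) a t] at h3
      have h4 : (t : ℤ) • IsLocalizedModule.mk' (emb A) a t ∈ W := h3
      have ht : ((t : ℤ) : ℚ) ≠ 0 := by exact_mod_cast nonZeroDivisors.ne_zero t.2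
      have h5 := W.smul_mem (((t : ℤ) : ℚ)⁻¹) h4
      rwa [← Int.cast_smul_eq_zsmul ℚ, smul_smul, inv_mul_cancel₀ ht, one_smul] at h5
    · intro hx
      obtain ⟨⟨a, t⟩, rfl⟩ := IsLocalizedModule.mk'_surjective (nonZeroDivisors ℤ) (emb A) x
      simp only [Function.uncurry_apply_pair] at hx ⊢
      have h3 : emb A a ∈ W := by
        rw [← IsLocalizedModule.mk'_cancel' (emb A) a t]
        show (t : ℤ) • IsLocalizedModule.mk' (emb A) a t ∈ W
        rw [← Int.cast_smul_eq_zsmul ℚ]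
        exact W.smul_mem _ hx
      obtain ⟨k, hk, hka⟩ := h2 a h3
      refine ⟨k • a, hka, ⟨k, mem_nonZeroDivisors_of_ne_zero hk⟩ * t, ?_⟩
      exact IsLocalizedModule.mk'_cancel_left (f := emb A) a ⟨k, mem_nonZeroDivisors_of_ne_zero hk⟩ t
  rw [← e]
  have h3 := IsLocalizedModule.finrank_eq (nonZeroDivisors ℤ)
    (B.toLocalized' ℚ (nonZeroDivisors ℤ) (emb A)) le_rfl
  rw [← h3]
  exact (IsLocalization.finrank_eq (R := ℤ) ℚ (nonZeroDivisors ℤ) le_rfl).symm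

end transfer

section rep

variable {Γ : Type*} [Group Γ] [IsMulCommutative Γ] [Finite Γ] {A : Type*} [AddCommGroup A]

/-- the norm `∑ σ ∈ H, σ` -/
noncomputable def nrm (ρ : Γ →* End ℤ A) (H : Subgroup Γ) : End ℤ A :=
  ∑ σ ∈ (Set.toFinite (H : Set Γ)).toFinset, ρ σ

theorem mul_nrm (ρ : Γ →* End ℤ A) (H : Subgroup Γ) {τ : Γ} (hτ : τ ∈ H) :
    ρ τ * nrm ρ H = nrm ρ H := by
  rw [nrm, mul_sum]
  refine sum_bij (fun σ _ => τ * σ) ?_ ?_ ?_ ?_
  · intro σ hσ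
    rw [Set.Finite.mem_toFinset] at hσ ⊢
    exact H.mul_mem hτ hσ
  · intro a _ b _ h
    exact mul_left_cancel h
  · intro b hb
    rw [Set.Finite.mem_toFinset] at hb
    exact ⟨τ⁻¹ * b, (Set.Finite.mem_toFinset _).2 (H.mul_mem (H.inv_mem hτ) hb),
      mul_inv_cancel_left _ _⟩
  · intro σ _
    rw [map_mul]

theorem commute_nrm (ρ : Γ →* End ℤ A) (H : Subgroup Γ) (τ : Γ) : Commute (ρ τ) (nrm ρ H) := by
  refine Commute.sum_right _ _ _ fun σ _ => ?_
  show ρ τ * ρ σ = ρ σ * ρ τ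
  rw [← map_mul, ← map_mul, isMulCommutative_iff.1 inferInstance τ σ]

theorem card_toFinset (H : Subgroup Γ) :
    (Set.toFinite (H : Set Γ)).toFinset.card = Nat.card H :=
  (Nat.card_eq_card_finite_toFinset (Set.toFinite (H : Set Γ))).symm

theorem nrm_mul_nrm (ρ : Γ →* End ℤ A) {H H' : Subgroup Γ} (h : H ≤ H') :
    nrm ρ H' * nrm ρ H = (Nat.card H) • nrm ρ H' ∧
      nrm ρ H * nrm ρ H' = (Nat.card H) • nrm ρ H' := by
  have h1 : nrm ρ H * nrm ρ H' = (Nat.card H) • nrm ρ H' := by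
    conv_lhs => rw [nrm, sum_mul]
    rw [sum_congr rfl (g := fun _ => nrm ρ H')]
    · rw [sum_const, card_toFinset]
    · intro σ hσ
      rw [Set.Finite.mem_toFinset] at hσ
      exact mul_nrm ρ H' (h hσ)
  refine ⟨?_, h1⟩
  rw [← h1]
  have : Commute (nrm ρ H) (nrm ρ H') :=
    (Commute.sum_left _ _ _ fun σ _ => commute_nrm ρ H' σ)
  exact this.eq.symm

/-- the average over `H` -/
noncomputable def avg (ρ : Γ →* End ℤ A) (H : Subgroup Γ) : End ℚ (ℚ ⊗[ℤ] A) :=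
  (Nat.card H : ℚ)⁻¹ • Module.End.baseChangeHom ℤ ℚ A (nrm ρ H)

theorem card_ne (H : Subgroup Γ) : (Nat.card H : ℚ) ≠ 0 := by
  exact_mod_cast Nat.card_pos.ne'

theorem avg_mul_avg (ρ : Γ →* End ℤ A) {H H' : Subgroup Γ} (h : H ≤ H') :
    avg ρ H' * avg ρ H = avg ρ H' ∧ avg ρ H * avg ρ H' = avg ρ H' := by
  have hH := card_ne H
  constructor
  · rw [avg, avg, smul_mul_smul_comm, ← map_mul, (nrm_mul_nrm ρ h).1, map_nsmul,
      ← Nat.cast_smul_eq_nsmul ℚ, smul_smul]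
    congr 1
    rw [mul_assoc, inv_mul_cancel₀ hH, mul_one]
  · rw [avg, avg, smul_mul_smul_comm, ← map_mul, (nrm_mul_nrm ρ h).2, map_nsmul,
      ← Nat.cast_smul_eq_nsmul ℚ, smul_smul]
    congr 1
    rw [mul_comm, ← mul_assoc, mul_inv_cancel₀ hH, one_mul]

theorem commute_avg (ρ : Γ →* End ℤ A) (H H' : Subgroup Γ) : Commute (avg ρ H) (avg ρ H') := by
  have h1 : Commute (nrm ρ H) (nrm ρ H') :=
    (Commute.sum_left _ _ _ fun σ _ => commute_nrm ρ H' σ)
  have h2 := h1.map (Module.End.baseChangeHom ℤ ℚ A)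
  exact (h2.smul_left _).smul_right _

theorem avg_bot (ρ : Γ →* End ℤ A) : avg ρ ⊥ = 1 := by
  have h1 : nrm ρ (⊥ : Subgroup Γ) = 1 := by
    rw [nrm]
    have : (Set.toFinite ((⊥ : Subgroup Γ) : Set Γ)).toFinset = {1} := by
      ext x
      simp
    rw [this, sum_singleton, map_one]
  rw [avg, h1, map_one]
  simp

theorem avg_emb (ρ : Γ →* End ℤ A) (H : Subgroup Γ) (a : A) :
    avg ρ H (emb A a) = (Nat.card H : ℚ)⁻¹ • emb A (nrm ρ H a) := by
  rw [avg, LinearMap.smul_apply]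
  rfl

/-- If `N a` is fixed by `H'`, `N` the norm of `H ≤ H'`, then the two averages of `a` agree. -/
theorem avg_eq_of_fixed (ρ : Γ →* End ℤ A) {H H' : Subgroup Γ} (h : H ≤ H') (a : A)
    (ha : ∀ τ ∈ H', ρ τ (nrm ρ H a) = nrm ρ H a) :
    avg ρ H (emb A a) = avg ρ H' (emb A a) := by
  have h1 : nrm ρ H' (nrm ρ H a) = (Nat.card H') • nrm ρ H a := by
    conv_lhs => rw [nrm, LinearMap.sum_apply]
    rw [sum_congr rfl (g := fun _ => nrm ρ H a)]
    · rw [sum_const, card_toFinset]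
    · intro τ hτ
      rw [Set.Finite.mem_toFinset] at hτ
      exact ha τ hτ
  have h2 : nrm ρ H' (nrm ρ H a) = (Nat.card H) • nrm ρ H' a := by
    rw [← Module.End.mul_apply, (nrm_mul_nrm ρ h).1]
    rfl
  rw [avg_emb, avg_emb]
  have h3 : (Nat.card H' : ℚ) • emb A (nrm ρ H a) = (Nat.card H : ℚ) • emb A (nrm ρ H' a) := by
    have h4 := congrArg (emb A) (h1.symm.trans h2)
    rw [map_nsmul (emb A), map_nsmul (emb A)] at h4
    rw [Nat.cast_smul_eq_nsmul, Nat.cast_smul_eq_nsmul, h4]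
  have hH := card_ne H
  have hH' := card_ne H'
  calc (Nat.card H : ℚ)⁻¹ • emb A (nrm ρ H a)
      = ((Nat.card H : ℚ)⁻¹ * (Nat.card H' : ℚ)⁻¹) • ((Nat.card H' : ℚ) • emb A (nrm ρ H a)) := by
        rw [smul_smul, mul_assoc, inv_mul_cancel₀ hH', mul_one]
    _ = _ := by
        rw [h3, smul_smul]
        congr 1
        rw [mul_comm, ← mul_assoc, mul_inv_cancel₀ hH, one_mul]

/-- Conversely the equality of the averages gives the condition up to torsion. -/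
theorem fixed_of_avg_eq (ρ : Γ →* End ℤ A) {H H' : Subgroup Γ} (a : A)
    (ha : avg ρ H (emb A a) = avg ρ H' (emb A a)) {τ : Γ} (hτ : τ ∈ H') :
    emb A (ρ τ (nrm ρ H a) - nrm ρ H a) = 0 := by
  have hH := card_ne H
  have hH' := card_ne H'
  rw [avg_emb, avg_emb] at ha
  have h1 : emb A (nrm ρ H a) = ((Nat.card H : ℚ) * (Nat.card H' : ℚ)⁻¹) •
      emb A (nrm ρ H' a) := by
    rw [mul_smul, ← ha, smul_smul, mul_inv_cancel₀ hH, one_smul]
  have h2 : emb A (ρ τ (nrm ρ H a)) = Module.End.baseChangeHom ℤ ℚ A (ρ τ)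
      (emb A (nrm ρ H a)) := rfl
  have h3 : Module.End.baseChangeHom ℤ ℚ A (ρ τ) (emb A (nrm ρ H' a)) =
      emb A (ρ τ (nrm ρ H' a)) := rfl
  have h4 : ρ τ (nrm ρ H' a) = nrm ρ H' a := by
    rw [← Module.End.mul_apply, mul_nrm ρ H' hτ]
  rw [map_sub, h2, h1, map_smul, h3, h4, sub_self]

/-- the elements fixed by `H` -/
def fixedBy (ρ : Γ →* End ℤ A) (H : Subgroup Γ) : Submodule ℤ A where
  carrier := {a | ∀ σ ∈ H, ρ σ a = a}
  add_mem' := fun {a b} ha hb σ hσ => by rw [map_add, ha σ hσ, hb σ hσ]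
  zero_mem' := fun σ _ => map_zero _
  smul_mem' := fun c a ha σ hσ => by rw [map_smul, ha σ hσ]

/-- the part of sign `s` with respect to a chain of subgroups `I 0 ≥ I 1 ≥ … ≥ I m` -/
def signedPart (ρ : Γ →* End ℤ A) (I : ℕ → Subgroup Γ) (s m : ℕ) : Submodule ℤ A where
  carrier := {a | ∀ l < m, l % 2 = s → nrm ρ (I (l + 1)) a ∈ fixedBy ρ (I l)}
  add_mem' := fun {a b} ha hb l hl hs => by
    rw [map_add]
    exact (fixedBy ρ (I l)).add_mem (ha l hl hs) (hb l hl hs)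
  zero_mem' := fun l _ _ => by
    rw [map_zero]
    exact (fixedBy ρ (I l)).zero_mem
  smul_mem' := fun c a ha l hl hs => by
    rw [map_smul]
    exact (fixedBy ρ (I l)).smul_mem c (ha l hl hs)

theorem emb_mem_avg_iff (ρ : Γ →* End ℤ A) (H : Subgroup Γ) (a : A)
    (ha : a ∈ fixedBy ρ H) : avg ρ H (emb A a) = emb A a := by
  have h1 : nrm ρ H a = (Nat.card H) • a := by
    rw [nrm, LinearMap.sum_apply, sum_congr rfl (g := fun _ => a)]
    · rw [sum_const, card_toFinset]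
    · intro τ hτ
      rw [Set.Finite.mem_toFinset] at hτ
      exact ha τ hτ
  rw [avg_emb, h1, map_nsmul, ← Nat.cast_smul_eq_nsmul ℚ, smul_smul, inv_mul_cancel₀ (card_ne H),
    one_smul]

theorem fixed_of_avg (ρ : Γ →* End ℤ A) (H : Subgroup Γ) (a : A)
    (ha : avg ρ H (emb A a) = emb A a) {τ : Γ} (hτ : τ ∈ H) :
    emb A (ρ τ a - a) = 0 := by
  have h1 : avg ρ (⊥ : Subgroup Γ) (emb A a) = avg ρ H (emb A a) := by
    rw [avg_bot, ha]
    rfl
  have h2 := fixed_of_avg_eq ρ a h1 hτ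
  have h3 : nrm ρ (⊥ : Subgroup Γ) = 1 := by
    rw [nrm]
    have : (Set.toFinite ((⊥ : Subgroup Γ) : Set Γ)).toFinset = {1} := by
      ext x
      simp
    rw [this, sum_singleton, map_one]
  rw [h3] at h2
  exact h2

/-- **The layer formula**: the rank of the part of signs `s`, `z`. -/
theorem finrank_signedPart [Module.Finite ℤ A] (ρ : Γ →* End ℤ A) (I J : ℕ → Subgroup Γ)
    (hI : Antitone I) (hJ : Antitone J) (m n s z : ℕ) (hm : I m = ⊥) (hn : J n = ⊥) :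
    (finrank ℤ (signedPart ρ I s m ⊓ signedPart ρ J z n : Submodule ℤ A) : ℤ) =
      ∑ i ∈ range (m + 1), ∑ j ∈ range (n + 1), coef s m i * coef z n j *
        (finrank ℤ (fixedBy ρ (I i) ⊓ fixedBy ρ (J j) : Submodule ℤ A) : ℤ) := by
  obtain ⟨k, hk, hk2⟩ := exists_uniform (A := A)
  let e : ℕ → End ℚ (ℚ ⊗[ℤ] A) := fun i => avg ρ (I i)
  let f : ℕ → End ℚ (ℚ ⊗[ℤ] A) := fun j => avg ρ (J j)
  let W : Submodule ℚ (ℚ ⊗[ℤ] A) :=
    { carrier := {v | (∀ l < m, l % 2 = s → e (l + 1) v = e l v) ∧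
        ∀ l < n, l % 2 = z → f (l + 1) v = f l v}
      add_mem' := fun {a b} ha hb => ⟨fun l hl h => by
        rw [map_add, map_add, ha.1 l hl h, hb.1 l hl h], fun l hl h => by
        rw [map_add, map_add, ha.2 l hl h, hb.2 l hl h]⟩
      zero_mem' := ⟨fun l _ _ => by rw [map_zero, map_zero], fun l _ _ => by
        rw [map_zero, map_zero]⟩
      smul_mem' := fun c a ha => ⟨fun l hl h => by
        rw [map_smul, map_smul, ha.1 l hl h], fun l hl h => by
        rw [map_smul, map_smul, ha.2 l hl h]⟩ }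
  let U : ℕ → ℕ → Submodule ℚ (ℚ ⊗[ℤ] A) := fun i j =>
    { carrier := {v | e i v = v ∧ f j v = v}
      add_mem' := fun {a b} ha hb => ⟨by rw [map_add, ha.1, hb.1], by rw [map_add, ha.2, hb.2]⟩
      zero_mem' := ⟨map_zero _, map_zero _⟩
      smul_mem' := fun c a ha => ⟨by rw [map_smul, ha.1], by rw [map_smul, ha.2]⟩ }
  have h1 := finrank_signed e f (fun i j h => avg_mul_avg ρ (hI h)) (fun i j h =>
    avg_mul_avg ρ (hJ h)) (fun i j => commute_avg ρ _ _) m n s z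
    (by show avg ρ (I m) = 1; rw [hm, avg_bot]) (by show avg ρ (J n) = 1; rw [hn, avg_bot])
    W (fun v => Iff.rfl) U (fun i j v => Iff.rfl)
  have h2 : finrank ℤ (signedPart ρ I s m ⊓ signedPart ρ J z n : Submodule ℤ A) =
      finrank ℚ W := by
    refine finrank_transfer _ _ ?_ ?_
    · rintro a ⟨ha1, ha2⟩
      exact ⟨fun l hl h => avg_eq_of_fixed ρ (hI (Nat.le_succ l)) a (ha1 l hl h),
        fun l hl h => avg_eq_of_fixed ρ (hJ (Nat.le_succ l)) a (ha2 l hl h)⟩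
    · rintro a ⟨ha1, ha2⟩
      refine ⟨k, hk, fun l hl h τ hτ => ?_, fun l hl h τ hτ => ?_⟩
      · have h3 := hk2 _ (fixed_of_avg_eq ρ a (ha1 l hl h) hτ)
        rw [map_smul, map_smul, ← sub_eq_zero, ← smul_sub]
        exact h3
      · have h3 := hk2 _ (fixed_of_avg_eq ρ a (ha2 l hl h) hτ)
        rw [map_smul, map_smul, ← sub_eq_zero, ← smul_sub]
        exact h3
  have h3 : ∀ i j, finrank ℤ (fixedBy ρ (I i) ⊓ fixedBy ρ (J j) : Submodule ℤ A) =
      finrank ℚ (U i j) := by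
    intro i j
    refine finrank_transfer _ _ ?_ ?_
    · rintro a ⟨ha1, ha2⟩
      exact ⟨emb_mem_avg_iff ρ _ a ha1, emb_mem_avg_iff ρ _ a ha2⟩
    · rintro a ⟨ha1, ha2⟩
      refine ⟨k, hk, fun τ hτ => ?_, fun τ hτ => ?_⟩
      · have h3 := hk2 _ (fixed_of_avg ρ _ a ha1 hτ)
        rw [map_smul, ← sub_eq_zero, ← smul_sub]
        exact h3
      · have h3 := hk2 _ (fixed_of_avg ρ _ a ha2 hτ)
        rw [map_smul, ← sub_eq_zero, ← smul_sub]
        exact h3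
  rw [h2, h1]
  refine sum_congr rfl fun i _ => sum_congr rfl fun j _ => ?_
  rw [h3]

end rep

end Pool.Agent.Lib.MP_c4714e_nt
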