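import Pool.Agent.Lib.MP_c4714e_nt.Ram
import Pool.Agent.Lib.MP_c4714e_nt.Defs

/-! Degrees and decomposition groups of the layers. -/

set_option autoImplicit false

namespace Pool.Agent.Lib.MP_c4714e_nt

open NumberField IntermediateField Module

variable {p : ℕ} {F Ω : Type} [Field F] [NumberField F] [Field Ω] [Algebra F Ω]

theorem finrank_inf (A B M : IntermediateField F Ω) [FiniteDimensional F A]
    [FiniteDimensional F B] (hA : M ≤ A) (hB : M ≤ B) :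
    finrank F M * finrank F ↥(A ⊔ B) ≤ finrank F A * finrank F B := by
  have hMfin : FiniteDimensional F M := by
    have : Function.Injective (inclusion hA).toLinearMap := (inclusion hA).injective
    exact FiniteDimensional.of_injective _ this
  let A' : IntermediateField M Ω := extendScalars hA
  let B' : IntermediateField M Ω := extendScalars hB
  have h1 : finrank M ↥(A' ⊔ B') ≤ finrank M A' * finrank M B' := finrank_sup_le _ _
  have hfA : FiniteDimensional F A' := inferInstanceAs (FiniteDimensional F A)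
  have hfB : FiniteDimensional F B' := inferInstanceAs (FiniteDimensional F B)
  have hfA2 : FiniteDimensional M A' := FiniteDimensional.right F M A'
  have hfB2 : FiniteDimensional M B' := FiniteDimensional.right F M B'
  have h2 : finrank F M * finrank M A' = finrank F A := finrank_mul_finrank F M A'
  have h3 : finrank F M * finrank M B' = finrank F B := finrank_mul_finrank F M B'
  have h4 : finrank F M * finrank M ↥(A' ⊔ B') = finrank F ↥(A' ⊔ B') :=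
    finrank_mul_finrank F M _
  have h5 : finrank F ↥(A ⊔ B) = finrank F ↥(A' ⊔ B') := by
    have : A ⊔ B = (A' ⊔ B').restrictScalars F := (restrictScalars_sup F A' B')
    rw [this]
    rfl
  rw [h5, ← h4, ← h2, ← h3]
  calc finrank F M * (finrank F M * finrank M ↥(A' ⊔ B'))
      ≤ finrank F M * (finrank F M * (finrank M A' * finrank M B')) :=
        Nat.mul_le_mul_left _ (Nat.mul_le_mul_left _ h1)
    _ = _ := by ring

variable [Fact p.Prime]

/-- The prime `𝔭` is totally ramified in `A` (of degree `d`), unramified in `B`. -/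
theorem tower (A B : IntermediateField F Ω) [FiniteDimensional F A] [FiniteDimensional F B]
    (𝔭 : Ideal (𝓞 F)) [𝔭.IsPrime] (d : ℕ) (hA : finrank F A = d)
    (htot : ∃ u : Ideal (𝓞 A), u.IsPrime ∧ 𝔭.map (algebraMap (𝓞 F) (𝓞 A)) = u ^ d)
    (hunr : Squarefree (𝔭.map (algebraMap (𝓞 F) (𝓞 B)))) :
    d * finrank F B ≤ finrank F ↥(A ⊔ B) ∧
    ∀ w : Ideal (𝓞 ↥(A ⊔ B)), w.IsPrime → w.comap (algebraMap (𝓞 F) (𝓞 ↥(A ⊔ B))) = 𝔭 →
      ∀ σ : ↥(A ⊔ B) ≃ₐ[F] ↥(A ⊔ B), (∀ x : ↥(A ⊔ B), (x : Ω) ∈ B → σ x = x) →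
        ∀ x : 𝓞 ↥(A ⊔ B),
          RingOfIntegers.mapRingEquiv (σ : ↥(A ⊔ B) ≃+* ↥(A ⊔ B)) x ∈ w ↔ x ∈ w := by
  have : NumberField A := NumberField.of_module_finite F A
  have : NumberField B := NumberField.of_module_finite F B
  have : NumberField ↥(A ⊔ B) := NumberField.of_module_finite F _
  letI : Algebra A ↥(A ⊔ B) := (inclusion (le_sup_left : A ≤ A ⊔ B)).toRingHom.toAlgebra
  letI : Algebra B ↥(A ⊔ B) := (inclusion (le_sup_right : B ≤ A ⊔ B)).toRingHom.toAlgebra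
  have : IsScalarTower F A ↥(A ⊔ B) := IsScalarTower.of_algebraMap_eq fun x => rfl
  have : IsScalarTower F B ↥(A ⊔ B) := IsScalarTower.of_algebraMap_eq fun x => rfl
  obtain ⟨u, hu, hu2⟩ := htot
  have h1 : d ≤ finrank B ↥(A ⊔ B) := le_finrank (B := B) (L := ↥(A ⊔ B)) 𝔭 u d hu2 hunr
  have h2 : finrank F B * finrank B ↥(A ⊔ B) = finrank F ↥(A ⊔ B) := finrank_mul_finrank F B _
  refine ⟨?_, ?_⟩
  · rw [← h2, mul_comm]
    exact Nat.mul_le_mul_left _ h1
  · intro w hw hw2 σ hσ x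
    have h3 : finrank B ↥(A ⊔ B) ≤ d := by
      have h4 : finrank F ↥(A ⊔ B) ≤ finrank F A * finrank F B := finrank_sup_le _ _
      rw [← h2, hA, mul_comm d] at h4
      exact Nat.le_of_mul_le_mul_left h4 finrank_pos
    have h5 := nonsplit (B := B) (L := ↥(A ⊔ B)) 𝔭 u d hu2 hunr h3 w hw2
      (σ : ↥(A ⊔ B) ≃+* ↥(A ⊔ B)) (fun b => hσ _ b.2)
    rw [← Ideal.mem_comap, h5]

variable (T : Layers p F Ω)

theorem K_mono {i m j n : ℕ} (h1 : i ≤ m) (h2 : j ≤ n) : T.K i j ≤ T.K m n :=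
  sup_le_sup (T.mono_P h1) (T.mono_Q h2)

theorem ne_bot_of_mem (𝔩 : Ideal (𝓞 F)) (h : (p : 𝓞 F) ∈ 𝔩) : 𝔩 ≠ ⊥ := by
  rintro rfl
  rw [Ideal.mem_bot] at h
  exact (Fact.out : p.Prime).ne_zero (by exact_mod_cast h)

theorem towP (m n : ℕ) : p ^ m * finrank F (T.Q n) ≤ finrank F ↥(T.P m ⊔ T.Q n) ∧
    ∀ w : Ideal (𝓞 ↥(T.P m ⊔ T.Q n)), w.IsPrime →
      w.comap (algebraMap (𝓞 F) (𝓞 ↥(T.P m ⊔ T.Q n))) = T.𝔭 →
      ∀ σ : ↥(T.P m ⊔ T.Q n) ≃ₐ[F] ↥(T.P m ⊔ T.Q n),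
        (∀ x : ↥(T.P m ⊔ T.Q n), (x : Ω) ∈ T.Q n → σ x = x) →
        ∀ x : 𝓞 ↥(T.P m ⊔ T.Q n),
          RingOfIntegers.mapRingEquiv (σ : ↥(T.P m ⊔ T.Q n) ≃+* ↥(T.P m ⊔ T.Q n)) x ∈ w ↔
            x ∈ w := by
  have := T.prime_𝔭
  exact tower (T.P m) (T.Q n) T.𝔭 (p ^ m) (T.finrank_P m) (T.tot_P m)
    (T.unr_Q n T.𝔭 T.prime_𝔭 (ne_bot_of_mem _ T.mem_𝔭) T.ne)

theorem finrank_K (m n : ℕ) : finrank F (T.K m n) = p ^ (m + n) := by
  apply le_antisymm
  · have h4 : finrank F ↥(T.P m ⊔ T.Q n) ≤ finrank F (T.P m) * finrank F (T.Q n) :=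
      finrank_sup_le _ _
    rw [T.finrank_P, T.finrank_Q, ← pow_add] at h4
    exact h4
  · have h := (towP T m n).1
    rw [T.finrank_Q, ← pow_add] at h
    exact h

theorem K_inf {i m j n : ℕ} (h1 : i ≤ m) (h2 : j ≤ n) : T.K i n ⊓ T.K m j = T.K i j := by
  have hle : T.K i j ≤ T.K i n ⊓ T.K m j := le_inf (K_mono T le_rfl h2) (K_mono T h1 le_rfl)
  have h3 := finrank_inf (T.K i n) (T.K m j) (T.K i n ⊓ T.K m j) inf_le_left inf_le_right
  have h4 : T.K i n ⊔ T.K m j = T.K m n := by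
    apply le_antisymm
    · exact sup_le (K_mono T h1 le_rfl) (K_mono T le_rfl h2)
    · exact sup_le (le_sup_of_le_right le_sup_left) (le_sup_of_le_left le_sup_right)
  rw [h4, finrank_K, finrank_K, finrank_K, ← pow_add] at h3
  have hp : 0 < p := (Fact.out : p.Prime).pos
  have h5 : finrank F ↥(T.K i n ⊓ T.K m j) ≤ p ^ (i + j) := by
    have e : p ^ (i + n + (m + j)) = p ^ (i + j) * p ^ (m + n) := by
      rw [← pow_add]
      congr 1
      omega
    rw [e] at h3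
    exact Nat.le_of_mul_le_mul_right h3 (pow_pos hp _)
  have hfin : FiniteDimensional F ↥(T.K i n ⊓ T.K m j) := by
    have : Function.Injective (inclusion (inf_le_left : T.K i n ⊓ T.K m j ≤ T.K i n)).toLinearMap :=
      (inclusion (inf_le_left : T.K i n ⊓ T.K m j ≤ T.K i n)).injective
    exact FiniteDimensional.of_injective _ this
  exact (IntermediateField.eq_of_le_of_finrank_le hle (by rw [finrank_K]; exact h5)).symm

/-- the elements of `Gal(L/F)` fixing `K'` -/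
def fixG (L K' : IntermediateField F Ω) : Subgroup (L ≃ₐ[F] L) where
  carrier := {σ | ∀ x : L, (x : Ω) ∈ K' → σ x = x}
  mul_mem' := fun {a b} ha hb x hx => by rw [AlgEquiv.mul_apply, hb x hx, ha x hx]
  one_mem' := fun _ _ => rfl
  inv_mem' := fun {a} ha x hx => by
    rw [← ha x hx]
    exact (a.symm_apply_apply x).trans (ha x hx).symm

theorem decomp_P (m n l : ℕ) (w : Ideal (𝓞 (T.K m n))) (hw : w.IsPrime)
    (hw2 : w.comap (algebraMap (𝓞 F) (𝓞 (T.K m n))) = T.𝔭) :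
    decomp (T.K m n) w (T.K l n) = fixG (T.K m n) (T.K l n) := by
  ext σ
  constructor
  · intro h
    exact h.1
  · intro h
    exact ⟨h, (towP T m n).2 w hw hw2 σ fun x hx => h x (le_sup_right (a := T.P l) hx)⟩

/-- the layers with the two primes exchanged -/
def Layers.swap : Layers p F Ω where
  𝔭 := T.𝔮
  𝔮 := T.𝔭
  prime_𝔭 := T.prime_𝔮
  prime_𝔮 := T.prime_𝔭
  mem_𝔭 := T.mem_𝔮
  mem_𝔮 := T.mem_𝔭
  ne := T.ne.symm
  P := T.Q
  Q := T.P
  mono_P := T.mono_Q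
  mono_Q := T.mono_P
  finrank_P := T.finrank_Q
  finrank_Q := T.finrank_P
  tot_P := T.tot_Q
  tot_Q := T.tot_P
  unr_P := T.unr_Q
  unr_Q := T.unr_P

theorem swap_aux (A B : IntermediateField F Ω) (h : A = B) (𝔮 : Ideal (𝓞 F))
    (C : IntermediateField F Ω)
    (hA : ∀ w : Ideal (𝓞 A), w.IsPrime → w.comap (algebraMap (𝓞 F) (𝓞 A)) = 𝔮 →
      ∀ σ : A ≃ₐ[F] A, (∀ x : A, (x : Ω) ∈ C → σ x = x) →
        ∀ x : 𝓞 A, RingOfIntegers.mapRingEquiv (σ : A ≃+* A) x ∈ w ↔ x ∈ w) :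
    ∀ w : Ideal (𝓞 B), w.IsPrime → w.comap (algebraMap (𝓞 F) (𝓞 B)) = 𝔮 →
      ∀ σ : B ≃ₐ[F] B, (∀ x : B, (x : Ω) ∈ C → σ x = x) →
        ∀ x : 𝓞 B, RingOfIntegers.mapRingEquiv (σ : B ≃+* B) x ∈ w ↔ x ∈ w := by
  subst h
  exact hA

theorem decomp_Q (m n l : ℕ) (w : Ideal (𝓞 (T.K m n))) (hw : w.IsPrime)
    (hw2 : w.comap (algebraMap (𝓞 F) (𝓞 (T.K m n))) = T.𝔮) :
    decomp (T.K m n) w (T.K m l) = fixG (T.K m n) (T.K m l) := by
  have h1 := swap_aux (T.swap.K n m) (T.K m n) (sup_comm _ _) T.𝔮 (T.P m) (towP T.swap n m).2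
  ext σ
  constructor
  · intro h
    exact h.1
  · intro h
    exact ⟨h, h1 w hw hw2 σ fun x hx => h x (le_sup_left (b := T.Q l) hx)⟩

end Pool.Agent.Lib.MP_c4714e_nt
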